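import Pool.Agent.Work.MP_8d13b5_lc.Ex2.Defs

/-!
# MP_8d13b5_lc, module Ex2: content, main inequality and bound with explicit constants
-/

set_option autoImplicit false

open Finset

namespace Pool.Agent.Work.MP_8d13b5_lc.Ex2

open Pool.Agent.Work.MP_8d13b5_lc.Ex

namespace ContentT_aux

theorem facts {s p : ℕ} (hp : p ∈ prT s) : p.Prime ∧ p % 2 = 1 ∧
    p + 1 ≤ 2 * (s % p) ∧ p + 1 ≤ 2 * (10 * s % p) := by
  unfold prT at hp
  rw [mem_filter] at hp
  obtain ⟨-, hpp, h1, h2⟩ := hp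
  have key : ∀ n : ℕ, 2 * n / p % 2 = 1 → p ≤ 2 * (n % p) := by
    intro n hn
    by_contra hlt
    push Not at hlt
    have h3 : n = p * (n / p) + n % p := (Nat.div_add_mod n p).symm
    have h4 : 2 * n / p = 2 * (n / p) := by
      have h5 : 2 * n = 2 * (n % p) + p * (2 * (n / p)) := by
        nth_rewrite 1 [h3]
        ring
      rw [h5, Nat.add_mul_div_left _ _ hpp.pos, Nat.div_eq_of_lt hlt, zero_add]
    rw [h4] at hn
    omega
  have h20 : 20 * s = 2 * (10 * s) := by ring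
  rw [h20] at h1
  have hodd : p % 2 = 1 := by
    rcases hpp.eq_two_or_odd with h5 | h5
    · rw [h5] at h1
      omega
    · exact h5
  have h3 := key s h2
  have h4 := key (10 * s) h1
  refine ⟨hpp, hodd, ?_, ?_⟩ <;> omega

/-- the last digit decides -/
theorem dvd_hc_mod (hM : HcMisc) {p k : ℕ} {a : ℤ} (hp : p.Prime)
    (h : (p : ℤ) ∣ hc a (k % p)) : (p : ℤ) ∣ hc a k := by
  have : Fact p.Prime := ⟨hp⟩
  have h1 := hM.2 a k (k % p) (Nat.mod_le _ _)
  have h2 : (p : ℤ) ∣ hc a k * ((k.choose (k % p) : ℕ) : ℤ) := by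
    rw [h1]
    exact Dvd.dvd.mul_right h _
  rcases (Nat.prime_iff_prime_int.1 hp).dvd_or_dvd h2 with h3 | h3
  · exact h3
  · exfalso
    have h4 : p ∣ k.choose (k % p) := by exact_mod_cast h3
    have h5 := Choose.choose_modEq_choose_mod_mul_choose_div_nat (p := p) (n := k) (k := k % p)
    rw [Nat.mod_mod, Nat.choose_self, Nat.div_eq_of_lt (Nat.mod_lt _ hp.pos), Nat.choose_zero_right,
      one_mul] at h5
    have h6 := (Nat.modEq_zero_iff_dvd).2 h4
    have h7 := h5.symm.trans h6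
    have h8 := (Nat.modEq_zero_iff_dvd).1 h7
    have := hp.one_lt
    have := Nat.le_of_dvd one_pos h8
    omega

/-- the last digits of a binomial coefficient -/
theorem dvd_choose_mod {p n k : ℕ} (hp : p.Prime) (h : n % p < k % p) : p ∣ n.choose k := by
  have : Fact p.Prime := ⟨hp⟩
  have h1 := Choose.choose_modEq_choose_mod_mul_choose_div_nat (p := p) (n := n) (k := k)
  rw [Nat.choose_eq_zero_of_lt h, zero_mul] at h1
  exact (Nat.modEq_zero_iff_dvd).1 h1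

theorem dvd_qc (hFac : HcFac) (hM : HcMisc) {s p k : ℕ} (hp : p ∈ prT s) (hk : k ≤ s) :
    (p : ℤ) ∣ qc (10 * s) s k := by
  obtain ⟨hpp, hodd, h1, h2⟩ := facts hp
  obtain ⟨m, hm⟩ : ∃ m, p = 2 * m + 1 := ⟨p / 2, by omega⟩
  have hp0 := hpp.pos
  obtain ⟨r, hr⟩ : ∃ r, r = 10 * s % p := ⟨_, rfl⟩
  obtain ⟨σ, hσ⟩ : ∃ σ, σ = s % p := ⟨_, rfl⟩
  obtain ⟨κ, hκ⟩ : ∃ κ, κ = k % p := ⟨_, rfl⟩
  have hrp : r < p := by rw [hr]; exact Nat.mod_lt _ hp0
  have hσp : σ < p := by rw [hσ]; exact Nat.mod_lt _ hp0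
  have hκp : κ < p := by rw [hκ]; exact Nat.mod_lt _ hp0
  rw [← hr] at h2
  rw [← hσ] at h1
  unfold qc
  by_cases hki : r - (m + 1) < κ
  · refine Dvd.dvd.mul_right (Dvd.dvd.mul_left ?_ _) _
    refine dvd_hc_mod hM hpp ?_
    rw [← hκ]
    refine ContentX.dvd_hc hFac hpp hκp hki ?_
    obtain ⟨i, hi⟩ : ∃ i, i = 10 * s / p := ⟨_, rfl⟩
    refine ⟨2 * i + 1, ?_⟩
    have e3 : ((r - (m + 1) : ℕ) : ℤ) = (r : ℤ) - (m + 1) := by
      have : m + 1 ≤ r := by omega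
      push_cast [Nat.cast_sub this]
      ring
    have e0 : 10 * s = p * i + r := by rw [hi, hr]; exact (Nat.div_add_mod _ _).symm
    have e4 : (10 : ℤ) * (s : ℤ) = p * i + r := by exact_mod_cast e0
    have e5 : (p : ℤ) = 2 * m + 1 := by exact_mod_cast hm
    rw [e3]
    push_cast
    linear_combination 2 * e4 - e5
  · have h5 : p ∣ (10 * s + s - k).choose (10 * s) := by
      refine dvd_choose_mod hpp ?_
      rw [← hr]
      have hκσ : κ ≤ σ := by omega
      have hdk : k / p ≤ s / p := Nat.div_le_div_right hk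
      have es : s = p * (s / p) + σ := by rw [hσ]; exact (Nat.div_add_mod _ _).symm
      have ek : k = p * (k / p) + κ := by rw [hκ]; exact (Nat.div_add_mod _ _).symm
      have er : 10 * s = p * (10 * s / p) + r := by rw [hr]; exact (Nat.div_add_mod _ _).symm
      obtain ⟨a, ha⟩ : ∃ a, s / p = k / p + a := Nat.exists_eq_add_of_le hdk
      have e6 : 10 * s + s - k = (r + σ - κ - p) + p * (10 * s / p + a + 1) := by
        have e7 : s + κ = k + p * a + σ := by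
          have : p * (s / p) = p * (k / p) + p * a := by rw [ha]; ring
          omega
        have e8 : p * (10 * s / p + a + 1) = p * (10 * s / p) + p * a + p := by ring
        rw [e8]
        omega
      rw [e6, Nat.add_mul_mod_self_left]
      have e9 : r + σ - κ - p < p := by omega
      rw [Nat.mod_eq_of_lt e9]
      omega
    exact Dvd.dvd.mul_left (by exact_mod_cast h5) _

theorem dvd_qc' (hFac : HcFac) (hM : HcMisc) {s p : ℕ} (hp : p ∈ prT s) (k : ℕ) :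
    (p : ℤ) ∣ qc (10 * s) s k := by
  by_cases h : k ≤ s
  · exact dvd_qc hFac hM hp h
  · unfold qc
    rcases Nat.eq_zero_or_pos s with h0 | h0
    · subst h0
      unfold prT at hp
      simp at hp
    · rw [Nat.choose_eq_zero_of_lt (by omega), Nat.cast_zero, mul_zero]
      exact dvd_zero _

theorem dvd_pc (hFac : HcFac) (hM : HcMisc) (hP : Pade) {s p : ℕ} (hp : p ∈ prT s) (k : ℕ)
    (hk : k ≤ 10 * s) : (p : ℤ) ∣ pc (10 * s) s k := by
  rw [← hP (10 * s) s k (by omega)]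
  exact dvd_sum fun ij _ => Dvd.dvd.mul_right (dvd_qc' hFac hM hp _) _

end ContentT_aux

open ContentT_aux in
theorem prfContentT (hFac : HcFac) (hM : HcMisc) (hP : Pade) : ContentT := by
  intro s p y hp
  constructor
  · unfold PP
    refine dvd_sum fun k hk => ?_
    rw [mem_range] at hk
    exact Dvd.dvd.mul_right (Dvd.dvd.mul_right (dvd_pc hFac hM hP hp k (by omega)) _) _
  · unfold QQ
    refine dvd_sum fun k hk => ?_
    rw [mem_range] at hk
    exact Dvd.dvd.mul_right (Dvd.dvd.mul_right (dvd_qc hFac hM hp (by omega)) _) _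

theorem prfCoreT (hC : Cong) (hN : NonV) (hK : ContentT) : CoreT := by
  intro s u z hs hu hz hre hre2
  have hpos : (0 : ℤ) ≤ u ^ 2 + (u - 1) ^ 2 := by positivity
  have hyZ : ((yy u : ℕ) : ℤ) = u ^ 2 + (u - 1) ^ 2 := by
    unfold yy
    rw [Int.natCast_natAbs, abs_of_nonneg hpos]
  have hy2 : ((yy u : ℕ) : ℤ) = 2 * (u ^ 2 - u) + 1 := by rw [hyZ]; ring
  have hodd : Odd ((yy u : ℕ) : ℤ) := ⟨u ^ 2 - u, hy2⟩
  have hoddN : Odd (yy u) := by exact_mod_cast hodd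
  have hy0 : 0 < yy u := hoddN.pos
  have hC' := hC (10 * s) s (yy u) (2 * u - 1) (by omega) hoddN (by
    rw [hyZ]; ring)
  obtain ⟨n, hn⟩ : ∃ n, n = 10 * s + s + 1 := ⟨_, rfl⟩
  rw [← hn] at hC'
  obtain ⟨j, e, hj, hje, hPQ⟩ := hC'
  have hyn : ((yy u : ℕ) : ZMod (yy u ^ n)) ^ n = 0 := by
    rw [← Nat.cast_pow]
    exact ZMod.natCast_self _
  have h0 := CoreIneqX.vanish (R := ZMod (yy u ^ n)) (u := u) (n := n) (z := z) hj hje (by
    have : ((yy u : ℕ) : ZMod (yy u ^ n)) = (((yy u : ℕ) : ℤ) : ZMod (yy u ^ n)) := by push_cast; rfl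
    rw [this, hyZ]
    congr 1
    ring) hyn (by rw [hn, show 10 * s + s + 1 = 11 * s + 1 by ring]; exact hz)
  have h1 : (z.im : ZMod (yy u ^ n)) = z.re * j := by
    have h2 := congrArg (· * j) h0
    simp only [zero_mul] at h2
    have h3 : (z.im : ZMod (yy u ^ n)) * j ^ 2 = - (z.im : ZMod (yy u ^ n)) := by rw [hj]; ring
    linear_combination h3 - h2
  obtain ⟨Δ, hΔ⟩ : ∃ Δ : ℤ, Δ = z.re * PP (10 * s) s (yy u)
      - (2 * u - 1) * z.im * QQ (10 * s) s (yy u) := ⟨_, rfl⟩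
  rw [← hΔ]
  have hΔ0 : (Δ : ZMod (yy u ^ n)) = 0 := by
    rw [hΔ]
    push_cast
    push_cast at hPQ
    rw [hPQ, h1]
    ring
  have hdvd : ((yy u ^ n : ℕ) : ℤ) ∣ Δ := (ZMod.intCast_zmod_eq_zero_iff_dvd _ _).1 hΔ0
  have hdvdN : yy u ^ (11 * s + 1) ∣ Δ.natAbs := by
    rw [show 11 * s + 1 = n by rw [hn]; ring]
    exact Int.natCast_dvd.1 hdvd
  have hne : Δ ≠ 0 := by
    have := hN s (yy u) (2 * u - 1) z.re (- z.im) hs hodd hre hre2
    intro h
    apply this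
    rw [← h, hΔ]
    ring
  refine CoreIneqX.count (fun p hp => ?_) hy0 (Int.natAbs_ne_zero.2 hne) (fun p hp => ?_) hdvdN
  · unfold prT at hp
    exact (Finset.mem_filter.1 hp).2.1
  · obtain ⟨h5, h6⟩ := hK s p (yy u) hp
    apply Int.natCast_dvd.1
    rw [hΔ]
    exact dvd_sub (Dvd.dvd.mul_left h5 _) (Dvd.dvd.mul_left h6 _)

namespace BoundC_aux

theorem ev1 {s : ℕ} (hs : 2000 ≤ s) : 8 * ((s : ℝ) + 1) * (10 * (s : ℝ) + 1) * 0.94 ^ s ≤ 1 := by
  have hs' : (2000 : ℝ) ≤ s := by exact_mod_cast hs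
  have h1 : (0.94 : ℝ) ≤ Real.exp (-0.06) := by
    have := Real.one_sub_le_exp_neg (0.06 : ℝ)
    linarith
  have h2 : (0.94 : ℝ) ^ s ≤ Real.exp (-(0.06 * s)) := by
    calc (0.94 : ℝ) ^ s ≤ Real.exp (-0.06) ^ s := pow_le_pow_left₀ (by norm_num) h1 s
      _ = Real.exp (-(0.06 * s)) := by
          rw [← Real.exp_nat_mul]
          congr 1
          ring
  have h3 := Real.pow_div_factorial_le_exp (x := 0.06 * (s : ℝ)) (by positivity) 6
  have h4 : 8 * ((s : ℝ) + 1) * (10 * (s : ℝ) + 1) ≤ (0.06 * (s : ℝ)) ^ 6 / (Nat.factorial 6 : ℕ) := by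
    have e : ((Nat.factorial 6 : ℕ) : ℝ) = 720 := by norm_num [Nat.factorial]
    rw [e]
    have h5 : (2000 : ℝ) ^ 4 ≤ (s : ℝ) ^ 4 := pow_le_pow_left₀ (by norm_num) hs' 4
    have h6 : (0.06 * (s : ℝ)) ^ 6 / 720 = 0.06 ^ 6 / 720 * (s : ℝ) ^ 4 * (s : ℝ) ^ 2 := by ring
    have h7 : (0.06 : ℝ) ^ 6 / 720 * 2000 ^ 4 * (s : ℝ) ^ 2 ≤
        0.06 ^ 6 / 720 * (s : ℝ) ^ 4 * (s : ℝ) ^ 2 := by
      refine mul_le_mul_of_nonneg_right ?_ (by positivity)
      exact mul_le_mul_of_nonneg_left h5 (by positivity)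
    rw [h6]
    refine le_trans ?_ h7
    nlinarith
  have h5 : 8 * ((s : ℝ) + 1) * (10 * (s : ℝ) + 1) ≤ Real.exp (0.06 * s) := h4.trans h3
  calc 8 * ((s : ℝ) + 1) * (10 * (s : ℝ) + 1) * 0.94 ^ s
      ≤ Real.exp (0.06 * s) * Real.exp (-(0.06 * s)) :=
        mul_le_mul h5 h2 (by positivity) (Real.exp_pos _).le
    _ = 1 := by rw [← Real.exp_add, add_neg_cancel, Real.exp_zero]

theorem ev2 {s : ℕ} (hs : 2000 ≤ s) : 8 * (1.005 : ℝ) ^ s ≤ 1.01 ^ s := by
  have hs' : (2000 : ℝ) ≤ s := by exact_mod_cast hs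
  have h1 := one_add_mul_le_pow (a := (0.004 : ℝ)) (by norm_num) s
  have h2 : (8 : ℝ) ≤ (1 + 0.004) ^ s := by
    refine le_trans ?_ h1
    linarith
  calc 8 * (1.005 : ℝ) ^ s ≤ (1 + 0.004) ^ s * 1.005 ^ s :=
        mul_le_mul_of_nonneg_right h2 (by positivity)
    _ = ((1 + 0.004) * 1.005) ^ s := (mul_pow _ _ _).symm
    _ ≤ 1.01 ^ s := pow_le_pow_left₀ (by norm_num) (by norm_num) s

end BoundC_aux

theorem prfBoundC (s₀ : ℕ) (h1 : CoreT) (hs₀ : PrimeProdC s₀) (h3 : SizeP) (h4 : SizeQ)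
    (h5 : Binom) : BoundC (s₀ + 2000) := by
  intro s u z hs hu hz hre hlog
  obtain ⟨C, hC⟩ : ∃ C : ℕ, C = s₀ + 2000 := ⟨_, rfl⟩
  have hCR : ((s₀ : ℝ) + 2000) = C := by rw [hC]; push_cast; ring
  rw [hCR] at hlog
  have hC201 : 201 ≤ C := by omega
  have hCr : (201 : ℝ) ≤ C := by exact_mod_cast hC201
  have huR : (120 : ℝ) ≤ u := by exact_mod_cast hu
  have hlu : 0 ≤ Real.log u := Real.log_nonneg (by linarith)
  have hc1 : (1 : ℝ) ≤ |(z.re : ℝ)| := by
    have := Int.one_le_abs hre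
    exact_mod_cast this
  have hlc : 0 ≤ Real.log |(z.re : ℝ)| := Real.log_nonneg hc1
  have hCs : (C : ℝ) ≤ s := by nlinarith
  have hCs' : C ≤ s := by exact_mod_cast hCs
  have hdiv : 1 + Real.log u + Real.log |(z.re : ℝ)| ≤ (s : ℝ) / C := by
    rw [le_div_iff₀ (by linarith)]
    linarith
  have hexp := BoundX.exp_le (C := C) (s := s) hC201
  have hcE : |(z.re : ℝ)| ≤ 1.005 ^ s := by
    refine le_trans ?_ hexp
    rw [← Real.exp_log (show 0 < |(z.re : ℝ)| by linarith)]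
    exact Real.exp_le_exp.2 (by linarith)
  have huE : (u : ℝ) ≤ 1.005 ^ s := by
    refine le_trans ?_ hexp
    rw [← Real.exp_log (show 0 < (u : ℝ) by linarith)]
    exact Real.exp_le_exp.2 (by linarith)
  have hre16 : |z.re| < 2 ^ (4 * s) := by
    have e1 : (1.005 : ℝ) ^ s < 16 ^ s := pow_lt_pow_left₀ (by norm_num) (by norm_num) (by omega)
    have e2 : ((|z.re| : ℤ) : ℝ) < 2 ^ (4 * s) := by
      rw [pow_mul]
      push_cast
      norm_num
      norm_num at hcE e1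
      linarith
    exact_mod_cast e2
  have hcore := h1 s u z hs hu hz hre hre16
  have hprod := hs₀ s (by omega)
  have hyZ : ((yy u : ℕ) : ℤ) = u ^ 2 + (u - 1) ^ 2 := by
    unfold yy
    rw [Int.natCast_natAbs, abs_of_nonneg (by positivity)]
  have hy28 : (28561 : ℤ) ≤ (yy u : ℕ) := by rw [hyZ]; nlinarith
  have hy28R : (28561 : ℝ) ≤ (yy u : ℕ) := by exact_mod_cast hy28
  have hP := h3 s (yy u : ℕ) hs hy28
  have hQ := h4 s (yy u : ℕ) hs hy28
  obtain ⟨hb1, hb2⟩ := h5 s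
  have hb1R : ((10 * s).choose s : ℝ) * 9 ^ (9 * s) ≤ 10 ^ (10 * s) := by exact_mod_cast hb1
  have hb2R : (10 : ℝ) ^ (10 * s) ≤ (10 * (s : ℝ) + 1) * (((10 * s).choose s : ℝ) * 9 ^ (9 * s)) := by
    exact_mod_cast hb2
  have hA := BoundX.stepA (c := |(z.re : ℝ)|) (s := s) (abs_nonneg _) (abs_nonneg _) hy28R
    (by simpa using hP) hb2R (by
      have e1 := BoundC_aux.ev1 (s := s) (by omega)
      have e2 : (1.005 : ℝ) ^ s * 0.93 ^ s ≤ 0.94 ^ s := by
        rw [← mul_pow]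
        exact pow_le_pow_left₀ (by norm_num) (by norm_num) s
      calc 8 * |(z.re : ℝ)| * ((s : ℝ) + 1) * (10 * (s : ℝ) + 1) * 0.93 ^ s
          = 8 * ((s : ℝ) + 1) * (10 * (s : ℝ) + 1) * (|(z.re : ℝ)| * 0.93 ^ s) := by ring
        _ ≤ 8 * ((s : ℝ) + 1) * (10 * (s : ℝ) + 1) * (1.005 ^ s * 0.93 ^ s) :=
            mul_le_mul_of_nonneg_left (mul_le_mul_of_nonneg_right hcE (by positivity))
              (by positivity)
        _ ≤ 8 * ((s : ℝ) + 1) * (10 * (s : ℝ) + 1) * 0.94 ^ s :=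
            mul_le_mul_of_nonneg_left e2 (by positivity)
        _ ≤ 1 := e1)
  refine BoundX.stepB (b := 2 * (u : ℝ) - 1) (Q := |(QQ (10 * s) s (yy u : ℕ) : ℝ)|)
    (ch := ((10 * s).choose s : ℝ)) (by linarith) (abs_nonneg _) hy28R (Nat.cast_nonneg _)
    (by simpa using hQ) hb1R ?_ ?_
  · have e1 := BoundC_aux.ev2 (s := s) (by omega)
    have : 4 * (2 * (u : ℝ) - 1) ≤ 8 * u := by linarith
    linarith
  · -- the core inequality in reals
    have e1 : ((∏ p ∈ prT s, p : ℕ) : ℝ) * ((yy u : ℕ) : ℝ) ^ (11 * s) ≤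
        |(z.re : ℝ)| * |(PP (10 * s) s (yy u : ℕ) : ℝ)|
          + (2 * (u : ℝ) - 1) * |(z.im : ℝ)| * |(QQ (10 * s) s (yy u : ℕ) : ℝ)| := by
      have e2 : (((∏ p ∈ prT s, p) * yy u ^ (11 * s) : ℕ) : ℝ) ≤
          |((z.re * PP (10 * s) s (yy u) - (2 * u - 1) * z.im * QQ (10 * s) s (yy u) : ℤ) : ℝ)| := by
        rw [← Int.cast_abs, Int.abs_eq_natAbs]
        exact_mod_cast hcore
      push_cast at e2
      push_cast
      refine e2.trans ((abs_sub _ _).trans (le_of_eq ?_))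
      rw [abs_mul, abs_mul, abs_mul, abs_of_pos (show 0 < 2 * (u : ℝ) - 1 by linarith)]
    have e3 : Real.exp (0.45 * s) = Real.exp 0.45 ^ s := by
      rw [mul_comm, Real.exp_nat_mul]
    rw [e3] at hprod
    have e4 : Real.exp 0.45 ^ s * ((yy u : ℕ) : ℝ) ^ (11 * s) ≤
        ((∏ p ∈ prT s, p : ℕ) : ℝ) * ((yy u : ℕ) : ℝ) ^ (11 * s) := by
      push_cast
      exact mul_le_mul_of_nonneg_right hprod (by positivity)
    linarith

open MainX in
theorem prfMainC {C : ℝ} (hC0 : 0 ≤ C) (hC : BoundC C) : MainC (11 * (C + 400) + 22) := by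
  intro m u z hu hz hre hm
  have hur : (120 : ℝ) ≤ u := by exact_mod_cast hu
  have hlu : 0 ≤ Real.log u := Real.log_nonneg (by linarith)
  have hlr : 0 ≤ Real.log |(z.re : ℝ)| := Real.log_nonneg (one_le_abs hre)
  set L : ℝ := 1 + Real.log u + Real.log |(z.re : ℝ)| with hL
  have hL1 : 1 ≤ L := by linarith
  have hCL : 0 ≤ C * L := by positivity
  set s : ℕ := (m - 1) / 11 with hs
  have hm1 : 1 ≤ m := by
    have h1 : (1 : ℝ) ≤ m := by
      refine le_trans ?_ hm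
      nlinarith
    exact_mod_cast h1
  have hs1 : 11 * s + 1 ≤ m := by omega
  have hs2 : m ≤ 11 * s + 11 := by omega
  have hs2r : (m : ℝ) ≤ 11 * s + 11 := by exact_mod_cast hs2
  have hsL : (C + 400) * L + 1 ≤ s := by nlinarith
  have hs0 : 1 ≤ s := by
    have h1 : (1 : ℝ) ≤ s := by
      refine le_trans ?_ hsL
      have : 0 ≤ (C + 400) * L := by positivity
      linarith
    exact_mod_cast h1
  have hdiv : bet u ^ (11 * s + 1) ∣ z := (pow_dvd_pow _ hs1).trans hz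
  have hb := hC s u z hs0 hu hdiv hre (by
    change C * L ≤ s
    nlinarith)
  have hYr := yy_real u
  set Y : ℝ := (yy u : ℝ) with hYdef
  have hY1 : 14400 ≤ Y := by
    rw [hYr]
    nlinarith
  have hY0 : 0 < Y := by linarith
  have hY2 : Y ≤ 2 * (u : ℝ) ^ 2 := by
    rw [hYr]
    nlinarith
  have hlog : Real.log Y ≤ 1 + 2 * Real.log u := by
    have h1 : Real.log Y ≤ Real.log (2 * (u : ℝ) ^ 2) := Real.log_le_log hY0 hY2
    have h2 : Real.log (2 * (u : ℝ) ^ 2) = Real.log 2 + 2 * Real.log u := by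
      rw [Real.log_mul (by norm_num) (by positivity), Real.log_pow]
      norm_num
    have h3 : Real.log 2 ≤ 1 := by
      have := Real.log_two_lt_d9
      linarith
    linarith
  have hnum := num (s := s) hY0 hlog (by nlinarith)
  have hbase : 1 ≤ Y ^ 10 / 40000 := by
    rw [le_div_iff₀ (by norm_num)]
    calc (1 : ℝ) * 40000 ≤ 14400 ^ 10 := by norm_num
      _ ≤ Y ^ 10 := by gcongr
  have hsplit : (Y ^ 10 / 40000) ^ (11 * s) = (Y ^ 10 / 38000) ^ (11 * s) * (38 / 40) ^ (11 * s) := by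
    rw [← mul_pow]
    congr 1
    ring
  calc (Y ^ 10 / 40000) ^ m ≤ (Y ^ 10 / 40000) ^ (11 * s + 11) := pow_le_pow_right₀ hbase hs2
    _ = (Y ^ 10 / 38000) ^ (11 * s) * ((38 / 40) ^ (11 * s) * (Y ^ 10 / 40000) ^ 11) := by
        rw [pow_add, hsplit, mul_assoc]
    _ ≤ (Y ^ 10 / 38000) ^ (11 * s) * 1 := by gcongr
    _ = ((Y ^ 10 / 38000) ^ s) ^ 11 := by rw [mul_one, ← pow_mul, mul_comm]
    _ ≤ |(z.im : ℝ)| ^ 11 := by gcongr

/-- The main theorem from the explicit bound for the product of the primes. -/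
theorem mainC_of_primes {s₀ : ℕ} (h : PrimeProdC s₀) : MainC (11 * ((s₀ + 2000) + 400) + 22) := by
  have hV : Vand := prfVand prfHcFac
  have hM : HcMisc := prfHcMisc prfHcFac
  have hP : Pade := prfPade hV hM
  have hC : CoreT := prfCoreT (prfCong hV hM hP) (prfNonV prfHcFac) (prfContentT prfHcFac hM hP)
  exact prfMainC (by positivity)
    (prfBoundC s₀ hC h (prfSizeP prfHcFac) (prfSizeQ prfHcFac) prfBinom)

end Pool.Agent.Work.MP_8d13b5_lc.Ex2
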