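import Pool.Agent.Work.MP_8d13b5_lc.Ex.PartA

/-!
# MP_8d13b5_lc, module Ex2: explicit constants, definitions and statements

Explicit version of module Ex. The set `prS s` of primes in `(s, 2 s]` is replaced by the set
`prT s` of all primes `p` with `⌊20 s / p⌋` and `⌊2 s / p⌋` odd. All constants are explicit.
-/

set_option autoImplicit false

open Finset

namespace Pool.Agent.Work.MP_8d13b5_lc.Ex2

open Pool.Agent.Work.MP_8d13b5_lc.Ex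

/-- The primes which divide `PP (10 * s) s y` and `QQ (10 * s) s y` for all `y`. -/
def prT (s : ℕ) : Finset ℕ := (range (2 * s + 1)).filter fun p =>
  p.Prime ∧ 20 * s / p % 2 = 1 ∧ 2 * s / p % 2 = 1

/-- [T1] -/
def ContentT : Prop := ∀ (s p : ℕ) (y : ℤ), p ∈ prT s →
  (p : ℤ) ∣ PP (10 * s) s y ∧ (p : ℤ) ∣ QQ (10 * s) s y

/-- [T2] as `CoreIneq`. -/
def CoreT : Prop := ∀ (s : ℕ) (u : ℤ) (z : GaussianInt), 1 ≤ s → 120 ≤ u →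
  bet u ^ (11 * s + 1) ∣ z → z.re ≠ 0 → |z.re| < 2 ^ (4 * s) →
  (∏ p ∈ prT s, p) * yy u ^ (11 * s) ≤
    (z.re * PP (10 * s) s (yy u) - (2 * u - 1) * z.im * QQ (10 * s) s (yy u)).natAbs

/-- [T3] as `PrimeProd`; to be proved for `s₀ = 10 ^ 990`. -/
def PrimeProdC (s₀ : ℕ) : Prop := ∀ s : ℕ, s₀ ≤ s →
  Real.exp (0.45 * s) ≤ ∏ p ∈ prT s, (p : ℝ)

/-- [T4] as `Bound`; to be proved for `C = s₀ + 2000` if `PrimeProdC s₀`. -/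
def BoundC (C : ℝ) : Prop := ∀ (s : ℕ) (u : ℤ) (z : GaussianInt), 1 ≤ s → 120 ≤ u →
  bet u ^ (11 * s + 1) ∣ z → z.re ≠ 0 → C * (1 + Real.log u + Real.log |(z.re : ℝ)|) ≤ s →
  ((yy u : ℝ) ^ 10 / 38000) ^ s ≤ |(z.im : ℝ)|

/-- [T5] as `Main`; to be proved for `11 * (C + 400) + 22` if `BoundC C`, `0 ≤ C`. -/
def MainC (C : ℝ) : Prop := ∀ (m : ℕ) (u : ℤ) (z : GaussianInt), 120 ≤ u →
  bet u ^ m ∣ z → z.re ≠ 0 → C * (1 + Real.log u + Real.log |(z.re : ℝ)|) ≤ m →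
  ((yy u : ℝ) ^ 10 / 40000) ^ m ≤ |(z.im : ℝ)| ^ 11

/-- [T6] as `RhoBound`; to be proved for `24 * C + 4003` if `MainC C`, `0 ≤ C`. -/
def RhoC (C : ℝ) : Prop := ∀ (n : ℕ) (w : GaussianInt),
  (((⟨3, 2⟩ : GaussianInt) ^ n * w).re ≠ 0 →
    C * (1 + Real.log |((((⟨3, 2⟩ : GaussianInt) ^ n * w).re : ℤ) : ℝ)|) ≤ n →
    (2.24 : ℝ) ^ (2 * n) ≤ ((Zsqrtd.norm w : ℤ) : ℝ)) ∧
  (((⟨3, -2⟩ : GaussianInt) ^ n * w).re ≠ 0 →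
    C * (1 + Real.log |((((⟨3, -2⟩ : GaussianInt) ^ n * w).re : ℤ) : ℝ)|) ≤ n →
    (2.24 : ℝ) ^ (2 * n) ≤ ((Zsqrtd.norm w : ℤ) : ℝ))

/-- [T7] as `Zeros`; to be proved for `18002 + 21 * C` if `RhoC C`, `0 ≤ C`. -/
def ZerosC (C : ℝ) : Prop := ∀ u : ℕ → ℤ, Rec5 u → u ≠ 0 → ∀ n, u n = 0 →
  (n : ℝ) ≤ C * (1 + Real.log (sz u))

/-- [T8] as `FamT`, for one pair `n`, `w`; to be proved for some explicit multiple of `C` if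
`MainC C`, `1 ≤ C`. -/
def FamC (C : ℝ) : Prop := ∀ (ρ : GaussianInt) (T : ℕ) (u : ℤ) (R A : ℝ) (n : ℕ)
  (w : GaussianInt), 1 ≤ T → 120 ≤ u →
  (Associated (ρ ^ T) (bet u) ∨ Associated (ρ ^ T) (star (bet u))) → 1 ≤ R → 1 ≤ A →
  40000 ^ 2 * R ^ (22 * T) < (yy u : ℝ) ^ 9 → (w.norm : ℝ) ≤ (A * R ^ n) ^ 2 →
  (ρ ^ n * w).re ≠ 0 →
  (n : ℝ) ≤ C * T * (1 + Real.log u) *
    (1 + 1 / Real.log ((yy u : ℝ) ^ 9 / (40000 ^ 2 * R ^ (22 * T)))) *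
    (1 + Real.log |((ρ ^ n * w).re : ℝ)| + Real.log A)

end Pool.Agent.Work.MP_8d13b5_lc.Ex2
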