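import Pool.Agent.Work.MP_8d13b5_lc.Ex2.BT

/-!
# MP_8d13b5_lc, module Ex2: the blocks of primes, numerical form
-/

set_option autoImplicit false

open Finset

namespace Pool.Agent.Work.MP_8d13b5_lc.Ex2

theorem log_ten_ge : (2.3 : ℝ) ≤ Real.log 10 := by
  rw [Real.le_log_iff_exp_le (by norm_num)]
  have h1 : Real.exp 1 < 2.7182818286 := Real.exp_one_lt_d9
  have h2 : Real.exp 2.3 ^ 10 ≤ 10 ^ 10 := by
    rw [← Real.exp_nat_mul]
    have h3 : ((10 : ℕ) : ℝ) * 2.3 = ((23 : ℕ) : ℝ) * 1 := by norm_num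
    rw [h3, Real.exp_nat_mul]
    calc Real.exp 1 ^ 23 ≤ 2.7182818286 ^ 23 := by gcongr
      _ ≤ 10 ^ 10 := by norm_num
  exact le_of_pow_le_pow_left₀ (by norm_num) (by norm_num) h2

theorem log_N_ge (N : ℕ) (hN : 10 ^ 990 ≤ N) : (2277 : ℝ) ≤ Real.log N := by
  have h1 : (10 : ℝ) ^ 990 ≤ N := by exact_mod_cast hN
  have h2 : Real.log ((10 : ℝ) ^ 990) ≤ Real.log N := Real.log_le_log (by positivity) h1
  rw [Real.log_pow] at h2
  have := log_ten_ge
  push_cast at h2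
  linarith

theorem exp_big {x : ℝ} (hx : 45 ≤ x) : (10 : ℝ) ^ 19 ≤ Real.exp x := by
  have h1 : (2.7182818283 : ℝ) < Real.exp 1 := Real.exp_one_gt_d9
  calc (10 : ℝ) ^ 19 ≤ 2.7 ^ 45 := by norm_num
    _ ≤ Real.exp 1 ^ 45 := by gcongr; linarith
    _ = Real.exp 45 := by rw [← Real.exp_nat_mul]; norm_num
    _ ≤ Real.exp x := Real.exp_le_exp.2 hx

theorem PB_num (N n : ℕ) (hN : 10 ^ 990 ≤ N) (hn : 1 ≤ n) (hn2 : n < 30000) :
    PB N n ≤ 2.05 * ((N : ℝ) / (n * (n + 1))) := by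
  have hL := log_N_ge N hN
  have hNpos : 0 < N := lt_of_lt_of_le (by positivity) hN
  have hNR : (0 : ℝ) < N := by exact_mod_cast hNpos
  obtain ⟨L, hLdef⟩ : ∃ L : ℝ, L = Real.log N := ⟨_, rfl⟩
  rw [← hLdef] at hL
  have hNL : (N : ℝ) = Real.exp L := by rw [hLdef, Real.exp_log hNR]
  obtain ⟨R, hR⟩ : ∃ R : ℕ, R = ⌊Real.exp (0.4895 * L)⌋₊ := ⟨_, rfl⟩
  have hR1 : (R : ℝ) ≤ Real.exp (0.4895 * L) := by
    rw [hR]; exact Nat.floor_le (Real.exp_pos _).le
  have hR2 : Real.exp (0.4895 * L) < R + 1 := by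
    rw [hR]; exact Nat.lt_floor_add_one _
  -- lower bound for R
  have hRlow : Real.exp (0.489 * L) ≤ R := by
    have e1 : Real.exp (0.4895 * L) = Real.exp (0.489 * L) * Real.exp (0.0005 * L) := by
      rw [← Real.exp_add]; congr 1; ring
    have e2 : 2 ≤ Real.exp (0.0005 * L) := by
      have := Real.add_one_le_exp (0.0005 * L)
      linarith
    have e3 : 1 ≤ Real.exp (0.489 * L) := Real.one_le_exp (by linarith)
    nlinarith
  have hlogR : 0.489 * L ≤ Real.log R := by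
    have h1 : 0 < Real.exp (0.489 * L) := Real.exp_pos _
    have := Real.log_le_log h1 hRlow
    rwa [Real.log_exp] at this
  have hRbig : (2 : ℝ) ≤ R := by
    refine le_trans ?_ hRlow
    have := Real.add_one_le_exp (0.489 * L)
    linarith
  have hRN2 : 2 ≤ R := by exact_mod_cast hRbig
  have hnR : (n : ℝ) + 1 ≤ 30000 := by exact_mod_cast hn2
  have hn0 : (1 : ℝ) ≤ n := by exact_mod_cast hn
  obtain ⟨E, hE⟩ : ∃ E : ℝ, E = Real.exp (0.02 * L) := ⟨_, rfl⟩
  have hE19 : (10 : ℝ) ^ 19 ≤ E := by rw [hE]; exact exp_big (by linarith)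
  obtain ⟨G, hG⟩ : ∃ G : ℝ, G = Real.exp (0.98 * L) := ⟨_, rfl⟩
  have hG1 : 1 ≤ G := by rw [hG]; exact Real.one_le_exp (by linarith)
  have hGE : (N : ℝ) = G * E := by
    rw [hNL, hG, hE, ← Real.exp_add]; congr 1; ring
  have hRG : (R : ℝ) ≤ G := by
    refine hR1.trans ?_
    rw [hG]
    exact Real.exp_le_exp.2 (by linarith)
  have hRN : R * (n + 1) ≤ N := by
    have h1 : (R : ℝ) * (n + 1) ≤ N := by
      rw [hGE]
      exact mul_le_mul hRG (by linarith) (by positivity) (by linarith)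
    exact_mod_cast h1
  have h1 := PB_le R N n hRN2 hn hRN
  obtain ⟨X, hX⟩ : ∃ X : ℝ, X = (N : ℝ) / (n * (n + 1)) := ⟨_, rfl⟩
  rw [← hX] at h1 ⊢
  rw [← hLdef] at h1
  have hXlow : G * 10 ^ 10 ≤ X := by
    rw [hX, le_div_iff₀ (by positivity), hGE]
    have e1 : (n : ℝ) * (n + 1) ≤ 30000 * 30000 := by
      apply mul_le_mul (by linarith) hnR (by positivity) (by norm_num)
    have e2 : (10 : ℝ) ^ 10 * (n * (n + 1)) ≤ E := by
      calc (10 : ℝ) ^ 10 * (n * (n + 1)) ≤ 10 ^ 10 * (30000 * 30000) := by gcongr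
        _ ≤ 10 ^ 19 := by norm_num
        _ ≤ E := hE19
    calc G * 10 ^ 10 * (n * (n + 1)) = G * (10 ^ 10 * (n * (n + 1))) := by ring
      _ ≤ G * E := by gcongr
  have hLR : L * (R : ℝ) ^ 2 ≤ 1000 * G := by
    have e1 : L ≤ 1000 * Real.exp (0.001 * L) := by
      have := Real.add_one_le_exp (0.001 * L)
      linarith
    have e2 : (R : ℝ) ^ 2 ≤ Real.exp (0.979 * L) := by
      calc (R : ℝ) ^ 2 ≤ Real.exp (0.4895 * L) ^ 2 := by gcongr
        _ = Real.exp (0.979 * L) := by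
          rw [← Real.exp_nat_mul]; congr 1; push_cast; ring
    calc L * (R : ℝ) ^ 2 ≤ 1000 * Real.exp (0.001 * L) * Real.exp (0.979 * L) := by gcongr
      _ = 1000 * G := by
        rw [hG, mul_assoc, ← Real.exp_add]; congr 2; ring
  have hX0 : 0 < X := lt_of_lt_of_le (by positivity) hXlow
  have hdiv : L * ((X + 1) / Real.log R) ≤ (X + 1) / 0.489 := by
    have hl0 : 0 < Real.log R := lt_of_lt_of_le (by linarith) hlogR
    rw [mul_div_assoc', div_le_div_iff₀ hl0 (by norm_num)]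
    nlinarith
  have h2 : L * ((X + 1) / Real.log R + (R : ℝ) ^ 2) ≤ (X + 1) / 0.489 + 1000 * G := by
    rw [mul_add]
    linarith
  refine h1.trans (h2.trans ?_)
  have h3 : (X + 1) / 0.489 ≤ 2.045 * (X + 1) := by
    rw [div_le_iff₀ (by norm_num)]
    nlinarith
  have h4 : 1000 * G + 2.045 ≤ 0.005 * X := by
    nlinarith
  linarith

theorem log_N_ge91 (N : ℕ) (hN : 10 ^ 91 ≤ N) : (209.3 : ℝ) ≤ Real.log N := by
  have h1 : (10 : ℝ) ^ 91 ≤ N := by exact_mod_cast hN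
  have h2 : Real.log ((10 : ℝ) ^ 91) ≤ Real.log N := Real.log_le_log (by positivity) h1
  rw [Real.log_pow] at h2
  have := log_ten_ge
  push_cast at h2
  linarith

theorem exp_big33 {x : ℝ} (hx : 33 ≤ x) : (2 : ℝ) * 10 ^ 14 ≤ Real.exp x := by
  have h1 : (2.7182818283 : ℝ) < Real.exp 1 := Real.exp_one_gt_d9
  calc (2 : ℝ) * 10 ^ 14 ≤ 2.718 ^ 33 := by norm_num
    _ ≤ Real.exp 1 ^ 33 := by gcongr; linarith
    _ = Real.exp 33 := by rw [← Real.exp_nat_mul]; norm_num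
    _ ≤ Real.exp x := Real.exp_le_exp.2 hx

/-- The bound with constant `2.4`, from `10 ^ 91` on. -/
theorem PB_num24 (N n : ℕ) (hN : 10 ^ 91 ≤ N) (hn : 1 ≤ n) (hn2 : n < 30000) :
    PB N n ≤ 2.4 * ((N : ℝ) / (n * (n + 1))) := by
  have hL := log_N_ge91 N hN
  have hNpos : 0 < N := lt_of_lt_of_le (by positivity) hN
  have hNR : (0 : ℝ) < N := by exact_mod_cast hNpos
  obtain ⟨L, hLdef⟩ : ∃ L : ℝ, L = Real.log N := ⟨_, rfl⟩
  rw [← hLdef] at hL
  have hNL : (N : ℝ) = Real.exp L := by rw [hLdef, Real.exp_log hNR]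
  obtain ⟨R, hR⟩ : ∃ R : ℕ, R = ⌊Real.exp (0.4172 * L)⌋₊ := ⟨_, rfl⟩
  have hR1 : (R : ℝ) ≤ Real.exp (0.4172 * L) := by
    rw [hR]; exact Nat.floor_le (Real.exp_pos _).le
  have hR2 : Real.exp (0.4172 * L) < R + 1 := by
    rw [hR]; exact Nat.lt_floor_add_one _
  -- lower bound for R
  have hRlow : Real.exp (0.417 * L) ≤ R := by
    have e1 : Real.exp (0.4172 * L) = Real.exp (0.417 * L) * Real.exp (0.0002 * L) := by
      rw [← Real.exp_add]; congr 1; ring
    have e2 : 1.04 ≤ Real.exp (0.0002 * L) := by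
      have := Real.add_one_le_exp (0.0002 * L)
      linarith
    have e3 : 25 ≤ Real.exp (0.417 * L) := by
      have := Real.add_one_le_exp (0.417 * L)
      linarith
    nlinarith
  have hlogR : 0.417 * L ≤ Real.log R := by
    have h1 : 0 < Real.exp (0.417 * L) := Real.exp_pos _
    have := Real.log_le_log h1 hRlow
    rwa [Real.log_exp] at this
  have hRbig : (2 : ℝ) ≤ R := by
    refine le_trans ?_ hRlow
    have := Real.add_one_le_exp (0.417 * L)
    linarith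
  have hRN2 : 2 ≤ R := by exact_mod_cast hRbig
  have hnR : (n : ℝ) + 1 ≤ 30000 := by exact_mod_cast hn2
  have hn0 : (1 : ℝ) ≤ n := by exact_mod_cast hn
  obtain ⟨E, hE⟩ : ∃ E : ℝ, E = Real.exp (0.16 * L) := ⟨_, rfl⟩
  have hE19 : (2 : ℝ) * 10 ^ 14 ≤ E := by rw [hE]; exact exp_big33 (by linarith)
  obtain ⟨G, hG⟩ : ∃ G : ℝ, G = Real.exp (0.84 * L) := ⟨_, rfl⟩
  have hG1 : 1 ≤ G := by rw [hG]; exact Real.one_le_exp (by linarith)
  have hGE : (N : ℝ) = G * E := by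
    rw [hNL, hG, hE, ← Real.exp_add]; congr 1; ring
  have hRG : (R : ℝ) ≤ G := by
    refine hR1.trans ?_
    rw [hG]
    exact Real.exp_le_exp.2 (by linarith)
  have hRN : R * (n + 1) ≤ N := by
    have h1 : (R : ℝ) * (n + 1) ≤ N := by
      rw [hGE]
      exact mul_le_mul hRG (by linarith) (by positivity) (by linarith)
    exact_mod_cast h1
  have h1 := PB_le R N n hRN2 hn hRN
  obtain ⟨X, hX⟩ : ∃ X : ℝ, X = (N : ℝ) / (n * (n + 1)) := ⟨_, rfl⟩
  rw [← hX] at h1 ⊢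
  rw [← hLdef] at h1
  have hXlow : G * 200000 ≤ X := by
    rw [hX, le_div_iff₀ (by positivity), hGE]
    have e1 : (n : ℝ) * (n + 1) ≤ 30000 * 30000 := by
      apply mul_le_mul (by linarith) hnR (by positivity) (by norm_num)
    have e2 : (200000 : ℝ) * (n * (n + 1)) ≤ E := by
      calc (200000 : ℝ) * (n * (n + 1)) ≤ 200000 * (30000 * 30000) := by gcongr
        _ ≤ 2 * 10 ^ 14 := by norm_num
        _ ≤ E := hE19
    calc G * 200000 * (n * (n + 1)) = G * (200000 * (n * (n + 1))) := by ring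
      _ ≤ G * E := by gcongr
  have hLR : L * (R : ℝ) ^ 2 ≤ 180 * G := by
    have e1 : L ≤ 180 * Real.exp (0.0056 * L) := by
      have := Real.add_one_le_exp (0.0056 * L)
      linarith
    have e2 : (R : ℝ) ^ 2 ≤ Real.exp (0.8344 * L) := by
      calc (R : ℝ) ^ 2 ≤ Real.exp (0.4172 * L) ^ 2 := by gcongr
        _ = Real.exp (0.8344 * L) := by
          rw [← Real.exp_nat_mul]; congr 1; push_cast; ring
    calc L * (R : ℝ) ^ 2 ≤ 180 * Real.exp (0.0056 * L) * Real.exp (0.8344 * L) := by gcongr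
      _ = 180 * G := by
        rw [hG, mul_assoc, ← Real.exp_add]; congr 2; ring
  have hX0 : 0 < X := lt_of_lt_of_le (by positivity) hXlow
  have hdiv : L * ((X + 1) / Real.log R) ≤ (X + 1) / 0.417 := by
    have hl0 : 0 < Real.log R := lt_of_lt_of_le (by linarith) hlogR
    rw [mul_div_assoc', div_le_div_iff₀ hl0 (by norm_num)]
    nlinarith
  have h2 : L * ((X + 1) / Real.log R + (R : ℝ) ^ 2) ≤ (X + 1) / 0.417 + 180 * G := by
    rw [mul_add]
    linarith
  refine h1.trans (h2.trans ?_)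
  have h3 : (X + 1) / 0.417 ≤ 2.3981 * (X + 1) := by
    rw [div_le_iff₀ (by norm_num)]
    nlinarith
  have h4 : 180 * G + 2.3981 ≤ 0.0019 * X := by
    nlinarith
  linarith

end Pool.Agent.Work.MP_8d13b5_lc.Ex2
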