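import Pool.Agent.Work.MP_8d13b5_lc.Ex2.Cheb
import Pool.Agent.Work.MP_8d13b5_lc.Ex2.PBNum
import Pool.Agent.Work.MP_8d13b5_lc.Ex2.Defs

/-!
# MP_8d13b5_lc, module Ex2: the product of the primes of `prT s`, explicit
-/

set_option autoImplicit false

open Finset

namespace Pool.Agent.Work.MP_8d13b5_lc.Ex2

open scoped ArithmeticFunction.vonMangoldt

theorem fL_le (l : List (ℕ × ℕ)) (hl : ∀ q ∈ l, 1 ≤ q.1) (n : ℕ) :
    fL l n ≤ (l.map fun q => q.2 * (q.1 - 1)).sum := by
  induction l with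
  | nil => simp [fL]
  | cons q l ih =>
    have ih' := ih fun p hp => hl p (List.mem_cons_of_mem q hp)
    have hq := hl q List.mem_cons_self
    have h3 : fL (q :: l) n = q.2 * (n % q.1) + fL l n := by simp [fL]
    rw [h3, List.map_cons, List.sum_cons]
    have h4 : n % q.1 ≤ q.1 - 1 := by
      have := Nat.mod_lt n hq
      omega
    have h5 := Nat.mul_le_mul_left q.2 h4
    omega

theorem LP_ok : ∀ q ∈ LP, 1 ≤ q.1 ∧ q.1 ≤ 1000 := by decide

theorem LN_ok : ∀ q ∈ LN, 1 ≤ q.1 ∧ q.1 ≤ 1000 := by decide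

theorem BN_eq : (LN.map fun q => q.2 * (q.1 - 1)).sum = 3937048 := by decide +kernel

theorem A_eq : (LN.map fun q => q.2 * (q.1 + 1)).sum + (LP.map fun q => q.2 * (q.1 + 1)).sum =
    8170226 := by decide +kernel

theorem value_real : (3206 : ℝ) ≤ (LN.map fun q => (q.2 : ℝ) * Real.log q.1).sum -
    (LP.map fun q => (q.2 : ℝ) * Real.log q.1).sum := by
  obtain ⟨hP, hP2⟩ := log_prL LP fun q hq => (LP_ok q hq).1
  obtain ⟨hN, hN2⟩ := log_prL LN fun q hq => (LN_ok q hq).1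
  rw [← hP2, ← hN2]
  have h1 : 27182818286 ^ kv * prL LP ≤ 10 ^ (10 * kv) * prL LN := Nat.le_of_ble_eq_true value
  obtain ⟨k, hk⟩ : ∃ k : ℕ, k = kv := ⟨_, rfl⟩
  rw [← hk] at h1
  have h2 : (27182818286 : ℝ) ^ k * (prL LP : ℝ) ≤ (10 : ℝ) ^ (10 * k) * (prL LN : ℝ) := by
    exact_mod_cast h1
  obtain ⟨P, hPd⟩ : ∃ P : ℝ, P = (prL LP : ℝ) := ⟨_, rfl⟩
  obtain ⟨Q, hQd⟩ : ∃ Q : ℝ, Q = (prL LN : ℝ) := ⟨_, rfl⟩
  rw [← hPd, ← hQd] at h2 ⊢
  have hP0 : 0 < P := by rw [hPd]; exact_mod_cast hP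
  have hQ0 : 0 < Q := by rw [hQd]; exact_mod_cast hN
  have h3 : Real.log ((27182818286 : ℝ) ^ k * P) ≤ Real.log ((10 : ℝ) ^ (10 * k) * Q) :=
    Real.log_le_log (by positivity) h2
  rw [Real.log_mul (by positivity) hP0.ne', Real.log_mul (by positivity) hQ0.ne', Real.log_pow,
    Real.log_pow] at h3
  have h4 : 1 + 10 * Real.log 10 ≤ Real.log 27182818286 := by
    have h5 : (27182818286 : ℝ) = 2.7182818286 * 10 ^ 10 := by norm_num
    rw [h5, Real.log_mul (by norm_num) (by norm_num), Real.log_pow]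
    have h6 : 1 ≤ Real.log 2.7182818286 := by
      rw [Real.le_log_iff_exp_le (by norm_num)]
      exact Real.exp_one_lt_d9.le
    push_cast
    linarith
  have h7 : (k : ℝ) * (1 + 10 * Real.log 10) ≤ k * Real.log 27182818286 :=
    mul_le_mul_of_nonneg_left h4 (Nat.cast_nonneg _)
  push_cast at h3
  have h8 : (k : ℝ) = 3206 := by rw [hk, kv]; norm_num
  rw [h8] at h3 h7
  linarith

/-- the chunks -/
theorem sumC_real (k n : ℕ) (hn : 1 ≤ n) :
    ∑ m ∈ Ico n (n + k), (gg m : ℝ) / (m * (m + 1)) ≤ (sumC k n : ℝ) / 10 ^ 12 := by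
  induction k generalizing n with
  | zero => simp [sumC]
  | succ k ih =>
    have ih' := ih (n + 1) (by omega)
    have h1 : sumC (k + 1) n = (gg n * 1000000000000 / (n * (n + 1)) + 1) + sumC k (n + 1) := rfl
    have h2 : n + (k + 1) = n + 1 + k := by ring
    rw [h2, Finset.sum_eq_sum_Ico_succ_bot (by omega), h1]
    have h3 : (gg n : ℝ) / (n * (n + 1)) ≤
        ((gg n * 1000000000000 / (n * (n + 1)) + 1 : ℕ) : ℝ) / 10 ^ 12 := by
      have hpos : 0 < n * (n + 1) := by positivity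
      have h4 := Nat.lt_div_mul_add (a := gg n * 1000000000000) hpos
      have h5 : (gg n : ℝ) * 1000000000000 ≤
          ((gg n * 1000000000000 / (n * (n + 1)) : ℕ) : ℝ) * (n * (n + 1)) + n * (n + 1) := by
        exact_mod_cast h4.le
      have hposR : (0 : ℝ) < (n : ℝ) * (n + 1) := by exact_mod_cast hpos
      rw [div_le_div_iff₀ hposR (by norm_num)]
      push_cast
      linarith
    push_cast at h3 ih' ⊢
    rw [add_div]
    linarith

theorem S_bound : ∑ m ∈ Ico 1 30000, (gg m : ℝ) / (m * (m + 1)) ≤ 342.32 := by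
  have key : ∀ k n c : ℕ, 1 ≤ n → Nat.ble (sumC k n) c = true →
      ∑ m ∈ Ico n (n + k), (gg m : ℝ) / (m * (m + 1)) ≤ (c : ℝ) / 10 ^ 12 := by
    intro k n c hn hc
    refine (sumC_real k n hn).trans ?_
    have : (sumC k n : ℝ) ≤ c := by exact_mod_cast Nat.le_of_ble_eq_true hc
    exact div_le_div_of_nonneg_right this (by norm_num)
  have h0 := key _ _ _ (by norm_num) chunk_0
  have h1 := key _ _ _ (by norm_num) chunk_1
  have h2 := key _ _ _ (by norm_num) chunk_2
  have h3 := key _ _ _ (by norm_num) chunk_3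
  have h4 := key _ _ _ (by norm_num) chunk_4
  have h5 := key _ _ _ (by norm_num) chunk_5
  have h6 := key _ _ _ (by norm_num) chunk_6
  have h7 := key _ _ _ (by norm_num) chunk_7
  have h8 := key _ _ _ (by norm_num) chunk_8
  have h9 := key _ _ _ (by norm_num) chunk_9
  have h10 := key _ _ _ (by norm_num) chunk_10
  have h11 := key _ _ _ (by norm_num) chunk_11
  norm_num only at h0 h1 h2 h3 h4 h5 h6 h7 h8 h9 h10 h11
  have e := fun (a b c : ℕ) (h1 : a ≤ b) (h2 : b ≤ c) =>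
    (Finset.sum_Ico_consecutive (fun m => (gg m : ℝ) / (m * (m + 1))) h1 h2).symm
  rw [e 1 27501 30000 (by norm_num) (by norm_num), e 1 25001 27501 (by norm_num) (by norm_num),
    e 1 22501 25001 (by norm_num) (by norm_num), e 1 20001 22501 (by norm_num) (by norm_num),
    e 1 17501 20001 (by norm_num) (by norm_num), e 1 15001 17501 (by norm_num) (by norm_num),
    e 1 12501 15001 (by norm_num) (by norm_num), e 1 10001 12501 (by norm_num) (by norm_num),
    e 1 7501 10001 (by norm_num) (by norm_num), e 1 5001 7501 (by norm_num) (by norm_num),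
    e 1 2501 5001 (by norm_num) (by norm_num)]
  linarith

theorem main_ineq (n : ℕ) : (fN n : ℝ) - fP n ≤ 100000 * ph n + gg n := by
  have h : fN n ≤ (fP n + 100000 * ph n) + gg n := by
    have e : gg n = fN n - (fP n + 100000 * ph n) := rfl
    rw [e]
    omega
  have h2 : (fN n : ℝ) ≤ (fP n + 100000 * ph n) + gg n := by exact_mod_cast h
  linarith

theorem fN_le (n : ℕ) : (fN n : ℝ) ≤ 3937048 := by
  have h := fL_le LN (fun q hq => (LN_ok q hq).1) n
  rw [← fN_eq, BN_eq] at h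
  exact_mod_cast h

theorem ph_prT (s d : ℕ) (h : ph (20 * s / d) ≠ 0) :
    20 * s / d % 2 = 1 ∧ 2 * s / d % 2 = 1 := by
  have e : ph (20 * s / d) = (20 * s / d % 2) * (20 * s / d / 10 % 2) := rfl
  have e2 : 20 * s / d / 10 = 2 * s / d := by
    rw [Nat.div_div_eq_div_mul, show 20 * s = (2 * s) * 10 by ring]
    exact Nat.mul_div_mul_right _ _ (by norm_num)
  rw [e, e2] at h
  have h1 : 20 * s / d % 2 ≠ 0 := fun h0 => h (by rw [h0, zero_mul])
  have h2 : 2 * s / d % 2 ≠ 0 := fun h0 => h (by rw [h0, mul_zero])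
  omega

theorem ph_le (n : ℕ) : ph n ≤ 1 := by
  have e : ph n = (n % 2) * (n / 10 % 2) := rfl
  rw [e]
  have h1 : n % 2 ≤ 1 := by omega
  have h2 : n / 10 % 2 ≤ 1 := by omega
  calc (n % 2) * (n / 10 % 2) ≤ 1 * 1 := Nat.mul_le_mul h1 h2
    _ = 1 := rfl

theorem block_eq (N n : ℕ) (hn : 1 ≤ n) :
    ((Ioc 0 N).filter fun d => d.Prime ∧ N / d < 30000).filter (fun d => N / d = n) ⊆
      (Ioc (N / (n + 1)) (N / n)).filter Nat.Prime := by
  intro d hd
  simp only [mem_filter, mem_Ioc] at hd ⊢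
  obtain ⟨⟨⟨hd0, hdN⟩, hp, -⟩, hdn⟩ := hd
  refine ⟨⟨?_, ?_⟩, hp⟩
  · rw [Nat.div_lt_iff_lt_mul (by omega)]
    have := Nat.lt_div_mul_add (a := N) hd0
    rw [hdn] at this
    calc N < n * d + d := this
      _ = d * (n + 1) := by ring
  · rw [Nat.le_div_iff_mul_le (by omega), ← hdn]
    exact Nat.mul_div_le N d

/-- The upper bound. -/
theorem upper (C : ℝ) (hC : 0 ≤ C) (s N : ℕ) (hs : N = 20 * s) (hN0 : 0 < N)
    (hPB : ∀ n : ℕ, 1 ≤ n → n < 30000 → PB N n ≤ C * ((N : ℝ) / (n * (n + 1)))) :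
    ∑ d ∈ Ioc 0 N, Λ d * ((fN (N / d) : ℝ) - fP (N / d)) ≤
      100000 * ∑ p ∈ prT s, Real.log p + C * 342.32 * N + 3937048 * (Real.log 4 * (N / 30000)) +
        3937048 * (2 * Real.sqrt N * Real.log N) := by
  classical
  have hNR : (1 : ℝ) ≤ N := by exact_mod_cast hN0
  -- splitting into primes and the others
  rw [← sum_filter_add_sum_filter_not (Ioc 0 N) Nat.Prime]
  have hnp : ∑ d ∈ (Ioc 0 N).filter (fun d => ¬ d.Prime), Λ d * ((fN (N / d) : ℝ) - fP (N / d)) ≤
      3937048 * (2 * Real.sqrt N * Real.log N) := by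
    have h1 := Chebyshev.psi_sub_theta_eq_sum_not_prime (N : ℝ)
    rw [Nat.floor_natCast] at h1
    have h2 := Chebyshev.psi_sub_theta_le hNR
    rw [h1] at h2
    calc ∑ d ∈ (Ioc 0 N).filter (fun d => ¬ d.Prime), Λ d * ((fN (N / d) : ℝ) - fP (N / d))
        ≤ ∑ d ∈ (Ioc 0 N).filter (fun d => ¬ d.Prime), Λ d * 3937048 := by
          refine sum_le_sum fun d _ => ?_
          refine mul_le_mul_of_nonneg_left ?_ ArithmeticFunction.vonMangoldt_nonneg
          have := fN_le (N / d)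
          have h3 : (0 : ℝ) ≤ fP (N / d) := Nat.cast_nonneg _
          linarith
      _ = 3937048 * ∑ d ∈ (Ioc 0 N).filter (fun d => ¬ d.Prime), Λ d := by
          rw [← sum_mul, mul_comm]
      _ ≤ _ := mul_le_mul_of_nonneg_left h2 (by norm_num)
  have hsplit : (Ioc 0 N).filter Nat.Prime =
      ((Ioc 0 N).filter fun d => d.Prime ∧ N / d < 30000) ∪
        ((Ioc 0 N).filter fun d => d.Prime ∧ ¬ N / d < 30000) := by
    ext d
    simp only [mem_filter, mem_union]
    tauto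
  have hdisj : Disjoint ((Ioc 0 N).filter fun d => d.Prime ∧ N / d < 30000)
      ((Ioc 0 N).filter fun d => d.Prime ∧ ¬ N / d < 30000) := by
    rw [Finset.disjoint_left]
    intro d hd hd'
    simp only [mem_filter] at hd hd'
    tauto
  have hbig : ∑ d ∈ (Ioc 0 N).filter (fun d => d.Prime ∧ ¬ N / d < 30000),
      Λ d * ((fN (N / d) : ℝ) - fP (N / d)) ≤ 3937048 * (Real.log 4 * (N / 30000)) := by
    have h1 := Chebyshev.theta_le_log4_mul_x (x := (N : ℝ) / 30000) (by positivity)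
    have h2 : Chebyshev.theta ((N : ℝ) / 30000) = ∑ p ∈ (Ioc 0 (N / 30000)).filter Nat.Prime,
        Real.log p := by
      unfold Chebyshev.theta
      have : ⌊(N : ℝ) / 30000⌋₊ = N / 30000 := by
        have := Nat.floor_div_natCast (N : ℝ) 30000
        rw [Nat.floor_natCast] at this
        exact_mod_cast this
      rw [this]
    rw [h2] at h1
    calc ∑ d ∈ (Ioc 0 N).filter (fun d => d.Prime ∧ ¬ N / d < 30000),
          Λ d * ((fN (N / d) : ℝ) - fP (N / d))
        ≤ ∑ d ∈ (Ioc 0 N).filter (fun d => d.Prime ∧ ¬ N / d < 30000),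
            3937048 * Real.log (d : ℝ) := by
          refine sum_le_sum fun d hd => ?_
          rw [mem_filter, mem_Ioc] at hd
          rw [ArithmeticFunction.vonMangoldt_apply_prime hd.2.1]
          have h3 := fN_le (N / d)
          have h4 : (0 : ℝ) ≤ fP (N / d) := Nat.cast_nonneg _
          have h5 : 0 ≤ Real.log (d : ℝ) := Real.log_natCast_nonneg d
          nlinarith
      _ ≤ ∑ d ∈ (Ioc 0 (N / 30000)).filter Nat.Prime, 3937048 * Real.log (d : ℝ) := by
          refine sum_le_sum_of_subset_of_nonneg ?_ ?_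
          · intro d hd
            rw [mem_filter, mem_Ioc] at hd ⊢
            refine ⟨⟨hd.1.1, ?_⟩, hd.2.1⟩
            have h3 : 30000 ≤ N / d := not_lt.mp hd.2.2
            rw [Nat.le_div_iff_mul_le hd.1.1] at h3
            rw [Nat.le_div_iff_mul_le (by norm_num)]
            linarith
          · intro d _ _
            have h5 : 0 ≤ Real.log (d : ℝ) := Real.log_natCast_nonneg d
            positivity
      _ = 3937048 * ∑ p ∈ (Ioc 0 (N / 30000)).filter Nat.Prime, Real.log p := by rw [mul_sum]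
      _ ≤ _ := mul_le_mul_of_nonneg_left h1 (by norm_num)
  have hsm : ∑ d ∈ (Ioc 0 N).filter (fun d => d.Prime ∧ N / d < 30000),
      Λ d * ((fN (N / d) : ℝ) - fP (N / d)) ≤
      100000 * ∑ p ∈ prT s, Real.log p + C * 342.32 * N := by
    have h1 : ∑ d ∈ (Ioc 0 N).filter (fun d => d.Prime ∧ N / d < 30000),
        Λ d * ((fN (N / d) : ℝ) - fP (N / d)) ≤
        ∑ d ∈ (Ioc 0 N).filter (fun d => d.Prime ∧ N / d < 30000),
          100000 * (Real.log d * ph (N / d)) +
        ∑ d ∈ (Ioc 0 N).filter (fun d => d.Prime ∧ N / d < 30000), Real.log d * gg (N / d) := by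
      rw [← sum_add_distrib]
      refine sum_le_sum fun d hd => ?_
      rw [mem_filter, mem_Ioc] at hd
      rw [ArithmeticFunction.vonMangoldt_apply_prime hd.2.1]
      have h5 : 0 ≤ Real.log (d : ℝ) := Real.log_natCast_nonneg d
      have h6 := mul_le_mul_of_nonneg_left (main_ineq (N / d)) h5
      linarith
    have h2 : ∑ d ∈ (Ioc 0 N).filter (fun d => d.Prime ∧ N / d < 30000),
          100000 * (Real.log d * ph (N / d)) ≤ 100000 * ∑ p ∈ prT s, Real.log p := by
      rw [← mul_sum]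
      refine mul_le_mul_of_nonneg_left ?_ (by norm_num)
      have h3 : ∑ d ∈ (Ioc 0 N).filter (fun d => d.Prime ∧ N / d < 30000),
          Real.log (d : ℝ) * (ph (N / d) : ℝ) =
          ∑ d ∈ ((Ioc 0 N).filter (fun d => d.Prime ∧ N / d < 30000)).filter
            (fun d => ph (N / d) ≠ 0), Real.log (d : ℝ) * (ph (N / d) : ℝ) := by
        refine (sum_subset (filter_subset _ _) fun d hd h => ?_).symm
        rw [mem_filter, not_and, not_not] at h
        rw [h hd]
        simp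
      have h3' : ∑ d ∈ ((Ioc 0 N).filter (fun d => d.Prime ∧ N / d < 30000)).filter
            (fun d => ph (N / d) ≠ 0), Real.log (d : ℝ) * (ph (N / d) : ℝ) ≤
          ∑ d ∈ ((Ioc 0 N).filter (fun d => d.Prime ∧ N / d < 30000)).filter
            (fun d => ph (N / d) ≠ 0), Real.log (d : ℝ) := by
        refine sum_le_sum fun d _ => ?_
        have h5 : 0 ≤ Real.log (d : ℝ) := Real.log_natCast_nonneg d
        have h6 : (ph (N / d) : ℝ) ≤ 1 := by exact_mod_cast ph_le (N / d)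
        calc Real.log (d : ℝ) * (ph (N / d) : ℝ) ≤ Real.log d * 1 :=
              mul_le_mul_of_nonneg_left h6 h5
          _ = Real.log d := mul_one _
      rw [h3]
      refine h3'.trans (sum_le_sum_of_subset_of_nonneg ?_ ?_)
      · intro d hd
        rw [mem_filter, mem_filter, mem_Ioc] at hd
        obtain ⟨⟨⟨hd0, -⟩, hdp, -⟩, hph⟩ := hd
        rw [hs] at hph
        obtain ⟨h6, h7⟩ := ph_prT s d hph
        unfold prT
        rw [mem_filter, mem_range]
        refine ⟨?_, hdp, h6, h7⟩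
        have h8 : 1 ≤ 2 * s / d := by
          rcases Nat.eq_zero_or_pos (2 * s / d) with h | h
          · rw [h] at h7; simp at h7
          · exact h
        rw [Nat.le_div_iff_mul_le hd0] at h8
        omega
      · intro d _ _
        exact Real.log_natCast_nonneg d
    have h3 : ∑ d ∈ (Ioc 0 N).filter (fun d => d.Prime ∧ N / d < 30000),
        Real.log d * (gg (N / d) : ℝ) ≤ C * 342.32 * N := by
      have hmaps : ∀ d ∈ (Ioc 0 N).filter (fun d => d.Prime ∧ N / d < 30000),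
          N / d ∈ Ico 1 30000 := by
        intro d hd
        rw [mem_filter, mem_Ioc] at hd
        rw [mem_Ico]
        exact ⟨(Nat.one_le_div_iff hd.1.1).2 hd.1.2, hd.2.2⟩
      rw [← sum_fiberwise_of_maps_to hmaps]
      have h4 : ∀ n ∈ Ico 1 30000, ∑ d ∈ ((Ioc 0 N).filter
          (fun d => d.Prime ∧ N / d < 30000)).filter (fun d => N / d = n),
          Real.log d * (gg (N / d) : ℝ) ≤ C * N * ((gg n : ℝ) / (n * (n + 1))) := by
        intro n hn
        rw [mem_Ico] at hn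
        have h5 : ∑ d ∈ ((Ioc 0 N).filter
          (fun d => d.Prime ∧ N / d < 30000)).filter (fun d => N / d = n),
          Real.log d * (gg (N / d) : ℝ) = ∑ d ∈ ((Ioc 0 N).filter
          (fun d => d.Prime ∧ N / d < 30000)).filter (fun d => N / d = n),
          Real.log d * (gg n : ℝ) := by
          refine sum_congr rfl fun d hd => ?_
          rw [(mem_filter.1 hd).2]
        rw [h5, ← sum_mul]
        have h6 : ∑ d ∈ ((Ioc 0 N).filter
          (fun d => d.Prime ∧ N / d < 30000)).filter (fun d => N / d = n), Real.log (d : ℝ) ≤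
          PB N n := by
          unfold PB
          exact sum_le_sum_of_subset_of_nonneg (block_eq N n hn.1) fun d _ _ =>
            Real.log_natCast_nonneg d
        have h7 := hPB n hn.1 hn.2
        calc (∑ d ∈ ((Ioc 0 N).filter
          (fun d => d.Prime ∧ N / d < 30000)).filter (fun d => N / d = n), Real.log (d : ℝ)) * gg n
            ≤ (C * ((N : ℝ) / (n * (n + 1)))) * gg n :=
              mul_le_mul_of_nonneg_right (h6.trans h7) (Nat.cast_nonneg _)
          _ = _ := by ring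
      refine (sum_le_sum h4).trans ?_
      rw [← mul_sum]
      have h8 := mul_le_mul_of_nonneg_left S_bound (show (0 : ℝ) ≤ C * N by positivity)
      refine h8.trans (le_of_eq ?_)
      ring
    linarith
  rw [hsplit, sum_union hdisj]
  linarith

/-- The lower bound. -/
theorem lower (N : ℕ) (hN : 1000 ≤ N) :
    (3206 : ℝ) * N - 8170226 * (Real.log N + 1) ≤
      ∑ d ∈ Ioc 0 N, Λ d * ((fN (N / d) : ℝ) - fP (N / d)) := by
  have h1 := sum_list N LP fun q hq => ⟨(LP_ok q hq).1, (LP_ok q hq).2.trans hN⟩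
  have h2 := sum_list N LN fun q hq => ⟨(LN_ok q hq).1, (LN_ok q hq).2.trans hN⟩
  have h3 : ∑ d ∈ Ioc 0 N, Λ d * ((fN (N / d) : ℝ) - fP (N / d)) =
      ∑ d ∈ Ioc 0 N, Λ d * ((fL LN (N / d) : ℕ) : ℝ) -
        ∑ d ∈ Ioc 0 N, Λ d * ((fL LP (N / d) : ℕ) : ℝ) := by
    rw [← sum_sub_distrib]
    refine sum_congr rfl fun d _ => ?_
    rw [fN_eq, fP_eq]
    ring
  have h4 := value_real
  have h5 : (((LN.map fun q => q.2 * (q.1 + 1)).sum : ℕ) : ℝ) +
      (((LP.map fun q => q.2 * (q.1 + 1)).sum : ℕ) : ℝ) = 8170226 := by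
    exact_mod_cast A_eq
  have hNR : (0 : ℝ) ≤ N := Nat.cast_nonneg _
  have h6 := mul_le_mul_of_nonneg_left h4 hNR
  rw [abs_le] at h1 h2
  obtain ⟨h1a, h1b⟩ := h1
  obtain ⟨h2a, h2b⟩ := h2
  rw [h3]
  obtain ⟨a, ha⟩ : ∃ a : ℝ, a = (((LN.map fun q => q.2 * (q.1 + 1)).sum : ℕ) : ℝ) := ⟨_, rfl⟩
  obtain ⟨b, hb⟩ : ∃ b : ℝ, b = (((LP.map fun q => q.2 * (q.1 + 1)).sum : ℕ) : ℝ) := ⟨_, rfl⟩
  rw [← ha, ← hb] at h5
  rw [← ha] at h2a h2b
  rw [← hb] at h1a h1b
  have h7 : (8170226 : ℝ) * (Real.log N + 1) = a * (Real.log N + 1) + b * (Real.log N + 1) := by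
    rw [← h5]; ring
  rw [h7]
  linarith

/-- The general inequality. -/
theorem prod_ge (C κ : ℝ) (hC : 0 ≤ C) (s N : ℕ) (hs : N = 20 * s) (hN40 : 10 ^ 40 ≤ N)
    (hPB : ∀ n : ℕ, 1 ≤ n → n < 30000 → PB N n ≤ C * ((N : ℝ) / (n * (n + 1))))
    (hκ : 5000 * κ + C * 342.32 ≤ 3023) :
    Real.exp (κ * s) ≤ ∏ p ∈ prT s, (p : ℝ) := by
  have hN1000 : 1000 ≤ N := le_trans (by norm_num) hN40
  have hN0 : 0 < N := lt_of_lt_of_le (by norm_num) hN1000
  have h1 := upper C hC s N hs hN0 hPB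
  have h2 := lower N hN1000
  have hlog : Real.log (∏ p ∈ prT s, (p : ℝ)) = ∑ p ∈ prT s, Real.log p := by
    refine Real.log_prod fun p hp => ?_
    unfold prT at hp
    exact_mod_cast (mem_filter.1 hp).2.1.ne_zero
  have hpos : 0 < ∏ p ∈ prT s, (p : ℝ) := by
    refine prod_pos fun p hp => ?_
    unfold prT at hp
    exact_mod_cast (mem_filter.1 hp).2.1.pos
  rw [← Real.exp_log hpos, hlog, Real.exp_le_exp]
  -- the numbers
  have hNR : (0 : ℝ) < N := by exact_mod_cast hN0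
  obtain ⟨r, hr⟩ : ∃ r : ℝ, r = Real.sqrt (Real.sqrt N) := ⟨_, rfl⟩
  have hr2 : r ^ 2 = Real.sqrt N := by rw [hr]; exact Real.sq_sqrt (Real.sqrt_nonneg _)
  have hr4 : r ^ 4 = N := by
    calc r ^ 4 = (r ^ 2) ^ 2 := by ring
      _ = (N : ℝ) := by rw [hr2]; exact Real.sq_sqrt hNR.le
  have hr0 : 0 < r := by rw [hr]; exact Real.sqrt_pos.2 (Real.sqrt_pos.2 hNR)
  have hrbig : (10 : ℝ) ^ 10 ≤ r := by
    have h3 : ((10 : ℝ) ^ 10) ^ 4 ≤ r ^ 4 := by
      rw [hr4, ← pow_mul]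
      exact_mod_cast hN40
    exact le_of_pow_le_pow_left₀ (by norm_num) hr0.le h3
  have hlogN : Real.log N ≤ 4 * r := by
    rw [← hr4, Real.log_pow]
    have := Real.log_le_sub_one_of_pos hr0
    push_cast
    linarith
  have hlogN0 : 0 ≤ Real.log N := Real.log_natCast_nonneg N
  have hl4 : Real.log 4 ≤ 1.3864 := by
    have h3 : Real.log 4 = 2 * Real.log 2 := by
      rw [show (4 : ℝ) = 2 ^ 2 by norm_num, Real.log_pow]; norm_num
    have := Real.log_two_lt_d9
    linarith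
  have hs1 : Real.sqrt N * Real.log N ≤ 4 * r ^ 3 := by
    rw [← hr2]
    calc r ^ 2 * Real.log N ≤ r ^ 2 * (4 * r) := by gcongr
      _ = 4 * r ^ 3 := by ring
  have hsR : (N : ℝ) = 20 * s := by rw [hs]; push_cast; ring
  have hl4N : 3937048 * (Real.log 4 * ((N : ℝ) / 30000)) ≤ 182 * N := by
    have h3 : Real.log 4 * ((N : ℝ) / 30000) ≤ 1.3864 * (N / 30000) :=
      mul_le_mul_of_nonneg_right hl4 (by positivity)
    linarith
  have hr3 : r ^ 3 * 10 ^ 10 ≤ N := by
    rw [← hr4]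
    calc r ^ 3 * 10 ^ 10 ≤ r ^ 3 * r := by gcongr
      _ = r ^ 4 := by ring
  have hr1 : r ≤ r ^ 3 := by
    calc r = r ^ 1 := (pow_one r).symm
      _ ≤ r ^ 3 := pow_le_pow_right₀ (by linarith) (by norm_num)
  have hfin : κ * s * 100000 ≤ 100000 * ∑ p ∈ prT s, Real.log p := by
    have e1 : κ * s * 100000 = 5000 * κ * N := by rw [hsR]; ring
    have e2 : (5000 * κ + C * 342.32) * N ≤ 3023 * N := mul_le_mul_of_nonneg_right hκ hNR.le
    rw [e1]
    nlinarith
  linarith

theorem prfPrimeProd : PrimeProdC (10 ^ 990) := by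
  intro s hs
  obtain ⟨N, hNs⟩ : ∃ N, N = 20 * s := ⟨_, rfl⟩
  have hsN : s ≤ N := by omega
  have hN : 10 ^ 990 ≤ N := hs.trans hsN
  have hN40 : 10 ^ 40 ≤ N := (Nat.pow_le_pow_right (by norm_num) (by norm_num)).trans hN
  have hPB : ∀ n : ℕ, 1 ≤ n → n < 30000 → PB N n ≤ 2.05 * ((N : ℝ) / (n * (n + 1))) :=
    fun n hn hn2 => PB_num N n hN hn hn2
  clear hN hs hsN
  exact prod_ge 2.05 0.45 (by norm_num) s N hNs hN40 hPB (by norm_num)

/-- Exponent `0.44`, from `10 ^ 90` on. -/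
theorem prod44 (s : ℕ) (hs : 10 ^ 90 ≤ s) : Real.exp (0.44 * s) ≤ ∏ p ∈ prT s, (p : ℝ) := by
  obtain ⟨N, hNs⟩ : ∃ N, N = 20 * s := ⟨_, rfl⟩
  have hN : 10 ^ 91 ≤ N := by
    rw [hNs]
    calc 10 ^ 91 ≤ 20 * 10 ^ 90 := by norm_num
      _ ≤ 20 * s := Nat.mul_le_mul_left _ hs
  have hN40 : 10 ^ 40 ≤ N := (Nat.pow_le_pow_right (by norm_num) (by norm_num)).trans hN
  have hPB : ∀ n : ℕ, 1 ≤ n → n < 30000 → PB N n ≤ 2.4 * ((N : ℝ) / (n * (n + 1))) :=
    fun n hn hn2 => PB_num24 N n hN hn hn2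
  exact prod_ge 2.4 0.44 (by norm_num) s N hNs hN40 hPB (by norm_num)

end Pool.Agent.Work.MP_8d13b5_lc.Ex2
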