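import Pool.Agent.Work.MP_8d13b5_lc.Ex2.Sel

/-!
# MP_8d13b5_lc, module Ex2: Brun-Titchmarsh

The number of primes in `(a, b]` is at most `(b - a) / log R + R ^ 2` for all `R ≤ a`, `2 ≤ R`, by the
Selberg sieve, and explicit bounds for the sum of `log p` over `N / (n + 1) < p ≤ N / n`.
-/

set_option autoImplicit false

open Finset

namespace Pool.Agent.Work.MP_8d13b5_lc.Ex2

open Sel

theorem count_mul (a b l : ℕ) (hab : a ≤ b) (hl : 0 < l) :
    |((((Ioc a b).filter fun n => l ∣ n).card : ℕ) : ℝ) - ((b : ℝ) - a) / l| ≤ 1 := by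
  have h1 : ((Ioc a b).filter fun n => l ∣ n).card = b / l - a / l := by
    have h2 : (Ioc 0 b).filter (fun n => l ∣ n) =
        ((Ioc 0 a).filter fun n => l ∣ n) ∪ ((Ioc a b).filter fun n => l ∣ n) := by
      rw [← filter_union]
      congr 1
      ext x
      simp only [mem_union, mem_Ioc]
      omega
    have h3 : Disjoint ((Ioc 0 a).filter fun n => l ∣ n) ((Ioc a b).filter fun n => l ∣ n) := by
      apply Finset.disjoint_filter_filter
      rw [Finset.disjoint_left]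
      intro x hx hx'
      rw [mem_Ioc] at hx hx'
      omega
    have h4 := card_union_of_disjoint h3
    rw [← h2, Nat.Ioc_filter_dvd_card_eq_div, Nat.Ioc_filter_dvd_card_eq_div] at h4
    omega
  have h5 : a / l ≤ b / l := Nat.div_le_div_right hab
  rw [h1, Nat.cast_sub h5]
  have hlR : (0 : ℝ) < l := by exact_mod_cast hl
  have e : ∀ x : ℕ, ((x / l : ℕ) : ℝ) ≤ (x : ℝ) / l ∧ (x : ℝ) / l < ((x / l : ℕ) : ℝ) + 1 := by
    intro x
    refine ⟨Nat.cast_div_le, ?_⟩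
    rw [div_lt_iff₀ hlR]
    have := Nat.lt_div_mul_add (a := x) hl
    have h6 : (x : ℝ) < ((x / l : ℕ) : ℝ) * l + l := by exact_mod_cast this
    linarith
  obtain ⟨ea1, ea2⟩ := e a
  obtain ⟨eb1, eb2⟩ := e b
  rw [sub_div, abs_le]
  constructor <;> linarith

theorem sieve_bound (R a b : ℕ) (hR : 1 ≤ R) (hab : a ≤ b) (hRa : R ≤ a) :
    (((Ioc a b).filter Nat.Prime).card : ℝ) ≤ ((b : ℝ) - a) / Gs 1 R + (R : ℝ) ^ 2 := by
  classical
  obtain ⟨-, hlam, -, -, -, hpr⟩ := claimC1 1 R le_rfl hR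
  have hform := claimC2' 1 R le_rfl hR
  have h1 : (((Ioc a b).filter Nat.Prime).card : ℝ) ≤ ∑ n ∈ Ioc a b, Lam 1 R n ^ 2 := by
    rw [card_eq_sum_ones, Nat.cast_sum]
    refine (sum_le_sum (fun n hn => ?_)).trans
      (sum_le_sum_of_subset_of_nonneg (filter_subset _ _) fun n _ _ => sq_nonneg _)
    rw [mem_filter, mem_Ioc] at hn
    rw [hpr n hn.2 (by omega)]
    simp
  have h2 : ∀ n, Lam 1 R n ^ 2 = ∑ e ∈ Dset 1 R, ∑ f ∈ Dset 1 R,
      lam 1 R e * lam 1 R f * (if Nat.lcm e f ∣ n then (1 : ℝ) else 0) := by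
    intro n
    rw [sq, Lam, sum_filter, sum_mul_sum]
    refine sum_congr rfl fun e _ => sum_congr rfl fun f _ => ?_
    by_cases he : e ∣ n
    · by_cases hf : f ∣ n
      · rw [if_pos he, if_pos hf, if_pos (Nat.lcm_dvd he hf), mul_one]
      · rw [if_neg hf, if_neg (fun h => hf ((Nat.dvd_lcm_right e f).trans h)), mul_zero, mul_zero]
    · rw [if_neg he, if_neg (fun h => he ((Nat.dvd_lcm_left e f).trans h)), zero_mul, mul_zero]
  have h3 : ∑ n ∈ Ioc a b, Lam 1 R n ^ 2 = ∑ e ∈ Dset 1 R, ∑ f ∈ Dset 1 R,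
      lam 1 R e * lam 1 R f * ((((Ioc a b).filter fun n => Nat.lcm e f ∣ n).card : ℕ) : ℝ) := by
    rw [sum_congr rfl fun n _ => h2 n, sum_comm]
    refine sum_congr rfl fun e _ => ?_
    rw [sum_comm]
    refine sum_congr rfl fun f _ => ?_
    rw [← mul_sum, ← sum_filter, sum_const, nsmul_eq_mul, mul_one]
  have h4 : ∀ e ∈ Dset 1 R, ∀ f ∈ Dset 1 R,
      lam 1 R e * lam 1 R f * ((((Ioc a b).filter fun n => Nat.lcm e f ∣ n).card : ℕ) : ℝ) ≤
      ((b : ℝ) - a) * (lam 1 R e * lam 1 R f / (Nat.lcm e f : ℝ)) + 1 := by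
    intro e he f hf
    rw [C1.mem_Dset] at he hf
    have hl : 0 < Nat.lcm e f := Nat.lcm_pos he.1.1 hf.1.1
    have h5 := count_mul a b (Nat.lcm e f) hab hl
    obtain ⟨x, hx⟩ : ∃ x : ℝ, x = ((((Ioc a b).filter fun n => Nat.lcm e f ∣ n).card : ℕ) : ℝ) -
      ((b : ℝ) - a) / (Nat.lcm e f : ℝ) := ⟨_, rfl⟩
    rw [← hx] at h5
    have h6 : ((((Ioc a b).filter fun n => Nat.lcm e f ∣ n).card : ℕ) : ℝ) =
      ((b : ℝ) - a) / (Nat.lcm e f : ℝ) + x := by rw [hx]; ring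
    rw [h6]
    have h7 : lam 1 R e * lam 1 R f * x ≤ 1 := by
      refine (le_abs_self _).trans ?_
      rw [abs_mul, abs_mul]
      calc |lam 1 R e| * |lam 1 R f| * |x| ≤ 1 * 1 * 1 := by
            gcongr
            · exact hlam e
            · exact hlam f
        _ = 1 := by norm_num
    calc lam 1 R e * lam 1 R f * (((b : ℝ) - a) / (Nat.lcm e f : ℝ) + x)
        = ((b : ℝ) - a) * (lam 1 R e * lam 1 R f / (Nat.lcm e f : ℝ)) + lam 1 R e * lam 1 R f * x := by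
          ring
      _ ≤ _ := by linarith
  have hcard : ((Dset 1 R).card : ℝ) ≤ R := by
    have : (Dset 1 R).card ≤ R := by
      refine (card_filter_le _ _).trans ?_
      simp
    exact_mod_cast this
  calc (((Ioc a b).filter Nat.Prime).card : ℝ) ≤ ∑ n ∈ Ioc a b, Lam 1 R n ^ 2 := h1
    _ = ∑ e ∈ Dset 1 R, ∑ f ∈ Dset 1 R,
      lam 1 R e * lam 1 R f * ((((Ioc a b).filter fun n => Nat.lcm e f ∣ n).card : ℕ) : ℝ) := h3
    _ ≤ ∑ e ∈ Dset 1 R, ∑ f ∈ Dset 1 R,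
        (((b : ℝ) - a) * (lam 1 R e * lam 1 R f / (Nat.lcm e f : ℝ)) + 1) :=
        sum_le_sum fun e he => sum_le_sum fun f hf => h4 e he f hf
    _ = ((b : ℝ) - a) * ∑ e ∈ Dset 1 R, ∑ f ∈ Dset 1 R,
        lam 1 R e * lam 1 R f / (Nat.lcm e f : ℝ) + ((Dset 1 R).card : ℝ) * ((Dset 1 R).card : ℝ) := by
        rw [mul_sum]
        simp only [sum_add_distrib, sum_const, nsmul_eq_mul, mul_one, mul_sum]
    _ ≤ ((b : ℝ) - a) / Gs 1 R + (R : ℝ) ^ 2 := by
        rw [hform]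
        have : ((Dset 1 R).card : ℝ) * ((Dset 1 R).card : ℝ) ≤ R * R := by gcongr
        have e : ((b : ℝ) - a) * (1 / Gs 1 R) = ((b : ℝ) - a) / Gs 1 R := by ring
        rw [e, sq]
        linarith

theorem log_le_Gs (R : ℕ) (hR : 1 ≤ R) : Real.log R ≤ Gs 1 R := by
  obtain ⟨-, -, h, -⟩ := claimC1 1 R le_rfl hR
  simpa using h

/-- the primes of one block -/
noncomputable def PB (N n : ℕ) : ℝ := ∑ p ∈ (Ioc (N / (n + 1)) (N / n)).filter Nat.Prime, Real.log p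

theorem PB_le (R N n : ℕ) (hR : 2 ≤ R) (hn : 1 ≤ n) (hRN : R * (n + 1) ≤ N) :
    PB N n ≤ Real.log N * (((N : ℝ) / (n * (n + 1)) + 1) / Real.log R + (R : ℝ) ^ 2) := by
  have hN1 : 1 ≤ N := by nlinarith
  have hRa : R ≤ N / (n + 1) := (Nat.le_div_iff_mul_le (by omega)).2 hRN
  have hab : N / (n + 1) ≤ N / n := Nat.div_le_div_left (by omega) (by omega)
  have h1 := sieve_bound R (N / (n + 1)) (N / n) (by omega) hab hRa
  have hlR : 0 < Real.log R := Real.log_pos (by exact_mod_cast hR)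
  have hG := log_le_Gs R (by omega)
  have hn0 : (0 : ℝ) < n := by exact_mod_cast hn
  have h2 : ((N / n : ℕ) : ℝ) - ((N / (n + 1) : ℕ) : ℝ) ≤ (N : ℝ) / (n * (n + 1)) + 1 := by
    have e1 : ((N / n : ℕ) : ℝ) ≤ (N : ℝ) / n := Nat.cast_div_le
    have e2 : (N : ℝ) / (n + 1) < ((N / (n + 1) : ℕ) : ℝ) + 1 := by
      rw [div_lt_iff₀ (by positivity)]
      have := Nat.lt_div_mul_add (a := N) (b := n + 1) (by omega)
      have h6 : (N : ℝ) < ((N / (n + 1) : ℕ) : ℝ) * ((n + 1 : ℕ) : ℝ) + ((n + 1 : ℕ) : ℝ) := by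
        exact_mod_cast this
      push_cast at h6
      linarith
    have e3 : (N : ℝ) / n - (N : ℝ) / (n + 1) = (N : ℝ) / (n * (n + 1)) := by
      field_simp
      ring
    linarith
  have h3 : (((N / n : ℕ) : ℝ) - ((N / (n + 1) : ℕ) : ℝ)) / Gs 1 R ≤
      ((N : ℝ) / (n * (n + 1)) + 1) / Real.log R := by
    have h0 : (0 : ℝ) ≤ ((N / n : ℕ) : ℝ) - ((N / (n + 1) : ℕ) : ℝ) := by
      have : ((N / (n + 1) : ℕ) : ℝ) ≤ ((N / n : ℕ) : ℝ) := by exact_mod_cast hab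
      linarith
    calc (((N / n : ℕ) : ℝ) - ((N / (n + 1) : ℕ) : ℝ)) / Gs 1 R
        ≤ (((N / n : ℕ) : ℝ) - ((N / (n + 1) : ℕ) : ℝ)) / Real.log R :=
          div_le_div_of_nonneg_left h0 hlR hG
      _ ≤ _ := div_le_div_of_nonneg_right h2 hlR.le
  have hlN : 0 ≤ Real.log N := Real.log_nonneg (by exact_mod_cast hN1)
  have h4 : PB N n ≤ Real.log N *
      ((((Ioc (N / (n + 1)) (N / n)).filter Nat.Prime).card : ℕ) : ℝ) := by
    unfold PB
    rw [mul_comm, ← nsmul_eq_mul]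
    refine sum_le_card_nsmul _ _ _ fun p hp => ?_
    rw [mem_filter, mem_Ioc] at hp
    have hp0 : (0 : ℝ) < p := by exact_mod_cast hp.2.pos
    refine Real.log_le_log hp0 ?_
    have : p ≤ N := hp.1.2.trans (Nat.div_le_self _ _)
    exact_mod_cast this
  refine h4.trans (mul_le_mul_of_nonneg_left ?_ hlN)
  linarith

end Pool.Agent.Work.MP_8d13b5_lc.Ex2
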