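import Mathlib

/-!
# MP_8d13b5_lc, module Ex2: the certificate

`fN n - fP n = 10 ^ 5 F n`, where `F n = ∑ W e * ⌊n / e⌋` and `∑ W e / e = 0`, approximates the
indicator function `ph n` of the `n` for which `n` and `⌊n / 10⌋` are odd.
-/

set_option autoImplicit false

namespace Pool.Agent.Work.MP_8d13b5_lc.Ex2

/-- the coefficients of `fP` -/
def LP : List (ℕ × ℕ) :=
  [(11, 9091), (13, 7692), (15, 6666), (17, 5882), (19, 5263), (24, 4166), (28, 3571), (31, 3226),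
  (35, 2857), (36, 2777), (37, 2703), (42, 2381), (48, 2083), (53, 1887), (59, 1690), (60,
  1666), (64, 1562), (68, 1470), (71, 1408), (80, 1250), (90, 2222), (97, 1025), (102, 980),
  (104, 948), (108, 819), (112, 892), (114, 877), (116, 339), (126, 793), (130, 769), (131,
  511), (151, 662), (156, 641), (170, 587), (182, 216), (184, 330), (190, 398), (198, 260),
  (234, 258), (236, 168), (268, 235), (276, 362), (288, 346)]

/-- the coefficients of `fN` -/
def LN : List (ℕ × ℕ) :=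
  [(12, 8333), (14, 7143), (16, 6250), (18, 5555), (20, 5000), (22, 4545), (26, 3846), (30, 3333),
  (34, 5882), (38, 5263), (45, 2222), (52, 1923), (56, 1786), (58, 1720), (62, 1613), (65,
  1538), (72, 1389), (74, 1351), (85, 1176), (92, 1087), (94, 1064), (96, 1036), (105, 1782),
  (106, 943), (118, 1180), (120, 833), (121, 826), (134, 500), (142, 704), (143, 699), (162,
  335), (165, 277), (180, 554), (187, 233), (194, 491), (216, 410), (252, 397), (256, 246),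
  (294, 131), (295, 199), (298, 139)]

/-- the sum of the terms `a * (n mod e)` -/
def fL (l : List (ℕ × ℕ)) (n : ℕ) : ℕ := (l.map fun q => q.2 * (n % q.1)).sum

/-- `fL LP`, for the computation -/
def fP (n : ℕ) : ℕ :=
  Nat.add (Nat.mul 9091 (Nat.mod n 11)) (Nat.add (Nat.mul 7692 (Nat.mod n 13)) (Nat.add (Nat.mul
  6666 (Nat.mod n 15)) (Nat.add (Nat.mul 5882 (Nat.mod n 17)) (Nat.add (Nat.mul 5263 (Nat.mod n
  19)) (Nat.add (Nat.mul 4166 (Nat.mod n 24)) (Nat.add (Nat.mul 3571 (Nat.mod n 28)) (Nat.add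
  (Nat.mul 3226 (Nat.mod n 31)) (Nat.add (Nat.mul 2857 (Nat.mod n 35)) (Nat.add (Nat.mul 2777
  (Nat.mod n 36)) (Nat.add (Nat.mul 2703 (Nat.mod n 37)) (Nat.add (Nat.mul 2381 (Nat.mod n 42))
  (Nat.add (Nat.mul 2083 (Nat.mod n 48)) (Nat.add (Nat.mul 1887 (Nat.mod n 53)) (Nat.add
  (Nat.mul 1690 (Nat.mod n 59)) (Nat.add (Nat.mul 1666 (Nat.mod n 60)) (Nat.add (Nat.mul 1562
  (Nat.mod n 64)) (Nat.add (Nat.mul 1470 (Nat.mod n 68)) (Nat.add (Nat.mul 1408 (Nat.mod n 71))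
  (Nat.add (Nat.mul 1250 (Nat.mod n 80)) (Nat.add (Nat.mul 2222 (Nat.mod n 90)) (Nat.add
  (Nat.mul 1025 (Nat.mod n 97)) (Nat.add (Nat.mul 980 (Nat.mod n 102)) (Nat.add (Nat.mul 948
  (Nat.mod n 104)) (Nat.add (Nat.mul 819 (Nat.mod n 108)) (Nat.add (Nat.mul 892 (Nat.mod n 112))
  (Nat.add (Nat.mul 877 (Nat.mod n 114)) (Nat.add (Nat.mul 339 (Nat.mod n 116)) (Nat.add
  (Nat.mul 793 (Nat.mod n 126)) (Nat.add (Nat.mul 769 (Nat.mod n 130)) (Nat.add (Nat.mul 511
  (Nat.mod n 131)) (Nat.add (Nat.mul 662 (Nat.mod n 151)) (Nat.add (Nat.mul 641 (Nat.mod n 156))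
  (Nat.add (Nat.mul 587 (Nat.mod n 170)) (Nat.add (Nat.mul 216 (Nat.mod n 182)) (Nat.add
  (Nat.mul 330 (Nat.mod n 184)) (Nat.add (Nat.mul 398 (Nat.mod n 190)) (Nat.add (Nat.mul 260
  (Nat.mod n 198)) (Nat.add (Nat.mul 258 (Nat.mod n 234)) (Nat.add (Nat.mul 168 (Nat.mod n 236))
  (Nat.add (Nat.mul 235 (Nat.mod n 268)) (Nat.add (Nat.mul 362 (Nat.mod n 276)) (Nat.add
  (Nat.mul 346 (Nat.mod n 288)) (0)))))))))))))))))))))))))))))))))))))))))))

/-- `fL LN`, for the computation -/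
def fN (n : ℕ) : ℕ :=
  Nat.add (Nat.mul 8333 (Nat.mod n 12)) (Nat.add (Nat.mul 7143 (Nat.mod n 14)) (Nat.add (Nat.mul
  6250 (Nat.mod n 16)) (Nat.add (Nat.mul 5555 (Nat.mod n 18)) (Nat.add (Nat.mul 5000 (Nat.mod n
  20)) (Nat.add (Nat.mul 4545 (Nat.mod n 22)) (Nat.add (Nat.mul 3846 (Nat.mod n 26)) (Nat.add
  (Nat.mul 3333 (Nat.mod n 30)) (Nat.add (Nat.mul 5882 (Nat.mod n 34)) (Nat.add (Nat.mul 5263
  (Nat.mod n 38)) (Nat.add (Nat.mul 2222 (Nat.mod n 45)) (Nat.add (Nat.mul 1923 (Nat.mod n 52))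
  (Nat.add (Nat.mul 1786 (Nat.mod n 56)) (Nat.add (Nat.mul 1720 (Nat.mod n 58)) (Nat.add
  (Nat.mul 1613 (Nat.mod n 62)) (Nat.add (Nat.mul 1538 (Nat.mod n 65)) (Nat.add (Nat.mul 1389
  (Nat.mod n 72)) (Nat.add (Nat.mul 1351 (Nat.mod n 74)) (Nat.add (Nat.mul 1176 (Nat.mod n 85))
  (Nat.add (Nat.mul 1087 (Nat.mod n 92)) (Nat.add (Nat.mul 1064 (Nat.mod n 94)) (Nat.add
  (Nat.mul 1036 (Nat.mod n 96)) (Nat.add (Nat.mul 1782 (Nat.mod n 105)) (Nat.add (Nat.mul 943
  (Nat.mod n 106)) (Nat.add (Nat.mul 1180 (Nat.mod n 118)) (Nat.add (Nat.mul 833 (Nat.mod n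
  120)) (Nat.add (Nat.mul 826 (Nat.mod n 121)) (Nat.add (Nat.mul 500 (Nat.mod n 134)) (Nat.add
  (Nat.mul 704 (Nat.mod n 142)) (Nat.add (Nat.mul 699 (Nat.mod n 143)) (Nat.add (Nat.mul 335
  (Nat.mod n 162)) (Nat.add (Nat.mul 277 (Nat.mod n 165)) (Nat.add (Nat.mul 554 (Nat.mod n 180))
  (Nat.add (Nat.mul 233 (Nat.mod n 187)) (Nat.add (Nat.mul 491 (Nat.mod n 194)) (Nat.add
  (Nat.mul 410 (Nat.mod n 216)) (Nat.add (Nat.mul 397 (Nat.mod n 252)) (Nat.add (Nat.mul 246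
  (Nat.mod n 256)) (Nat.add (Nat.mul 131 (Nat.mod n 294)) (Nat.add (Nat.mul 199 (Nat.mod n 295))
  (Nat.add (Nat.mul 139 (Nat.mod n 298)) (0)))))))))))))))))))))))))))))))))))))))))

theorem stepL (a e n t t' : ℕ) (h : t = t') :
    Nat.add (Nat.mul a (Nat.mod n e)) t = a * (n % e) + t' := by
  rw [h]
  rfl

theorem fP_eq (n : ℕ) : fP n = fL LP n := by
  unfold fP
  simp only [fL, LP, List.map_cons, List.map_nil, List.sum_cons, List.sum_nil]
  repeat refine stepL _ _ _ _ _ ?_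
  rfl

theorem fN_eq (n : ℕ) : fN n = fL LN n := by
  unfold fN
  simp only [fL, LN, List.map_cons, List.map_nil, List.sum_cons, List.sum_nil]
  repeat refine stepL _ _ _ _ _ ?_
  rfl

/-- the indicator function -/
def ph (n : ℕ) : ℕ := Nat.mul (Nat.mod n 2) (Nat.mod (Nat.div n 10) 2)

/-- the positive part of `fN - fP - 10 ^ 5 ph` -/
def gg (n : ℕ) : ℕ := Nat.sub (fN n) (Nat.add (fP n) (Nat.mul 100000 (ph n)))

/-- upper bound for `10 ^ 12` times the sum of `gg m / (m (m + 1))` over `n ≤ m < n + k` -/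
def sumC : ℕ → ℕ → ℕ
  | 0, _ => 0
  | k + 1, n => Nat.add (Nat.succ (Nat.div (Nat.mul (gg n) 1000000000000)
      (Nat.mul n (Nat.succ n)))) (sumC k (Nat.succ n))

theorem chunk_0 : Nat.ble (sumC 2500 1) 316630007349349 = true := by
  decide +kernel

theorem chunk_1 : Nat.ble (sumC 2500 2501) 13872423655747 = true := by
  decide +kernel

theorem chunk_2 : Nat.ble (sumC 2500 5001) 4766021056686 = true := by
  decide +kernel

theorem chunk_3 : Nat.ble (sumC 2500 7501) 2383154163397 = true := by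
  decide +kernel

theorem chunk_4 : Nat.ble (sumC 2500 10001) 1258327222023 = true := by
  decide +kernel

theorem chunk_5 : Nat.ble (sumC 2500 12501) 1042095486502 = true := by
  decide +kernel

theorem chunk_6 : Nat.ble (sumC 2500 15001) 641750826111 = true := by
  decide +kernel

theorem chunk_7 : Nat.ble (sumC 2500 17501) 542753236120 = true := by
  decide +kernel

theorem chunk_8 : Nat.ble (sumC 2500 20001) 385387167625 = true := by
  decide +kernel

theorem chunk_9 : Nat.ble (sumC 2500 22501) 333251996898 = true := by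
  decide +kernel

theorem chunk_10 : Nat.ble (sumC 2500 25001) 245926762362 = true := by
  decide +kernel

theorem chunk_11 : Nat.ble (sumC 2499 27501) 209839623009 = true := by
  decide +kernel

/-- the value of the certificate -/
def kv : ℕ := 3206

/-- the product of the powers -/
def prL (l : List (ℕ × ℕ)) : ℕ := (l.map fun q => q.1 ^ q.2).prod

theorem value : Nat.ble (27182818286 ^ kv * prL LP) (10 ^ (10 * kv) * prL LN) = true := by
  decide +kernel

end Pool.Agent.Work.MP_8d13b5_lc.Ex2
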