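import Pool.Agent.Work.MP_8d13b5_lc.Ex2.ChainE

/-!
# MP_8d13b5_lc, module Ex2, chain F: one procedure for all families
-/

set_option autoImplicit false

open Finset Polynomial

namespace Pool.Agent.Work.MP_8d13b5_lc.Ex2

open Pool.Agent.Work.MP_8d13b5_lc.Ex

open Pool.Agent.Work.MP_8d13b5_lc.US

namespace EDec

/-- The bound for the zeros, in terms of a bound `N` for all parameters. -/
def Fb (x₀ N : ℕ) : ℕ :=
  22 * N * x₀ + N * N * (24200 * (1 + N + N) + 44 * N + 44 * N * (88 * N * N * N)) + 1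

theorem primrec_F (x₀ : ℕ) : Primrec (Fb x₀) := by
  unfold Fb
  have c : ∀ k : ℕ, Primrec (fun _ : ℕ => k) := fun k => Primrec.const k
  have i : Primrec (fun N : ℕ => N) := Primrec.id
  have m : ∀ f g : ℕ → ℕ, Primrec f → Primrec g → Primrec (fun n => f n * g n) :=
    fun f g hf hg => Primrec.nat_mul.comp hf hg
  have a : ∀ f g : ℕ → ℕ, Primrec f → Primrec g → Primrec (fun n => f n + g n) :=
    fun f g hf hg => Primrec.nat_add.comp hf hg
  exact a _ _ (a _ _ (m _ _ (m _ _ (c 22) i) (c x₀)) (m _ _ (m _ _ i i)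
    (a _ _ (a _ _ (m _ _ (c 24200) (a _ _ (a _ _ (c 1) i) i)) (m _ _ (c 44) i))
      (m _ _ (m _ _ (c 44) i) (m _ _ (m _ _ (m _ _ (c 88) i) i) i))))) (c 1)

theorem val_eq (v : ℕ → ℤ) (a : List ℤ) (h1 : 1 ≤ a.length) (h2 : a.getD (a.length - 1) 0 ≠ 0)
    (h3 : ∀ n : ℕ, v (n + a.length) = ∑ j ∈ range a.length, a.getD j 0 * v (n + a.length - 1 - j))
    (n : ℕ) : v n = val (a, (List.range a.length).map v) n := by
  refine eq_val _ ?_ v ?_ h3 n
  · exact ⟨by simp, h1, h2⟩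
  · intro i hi
    have hi' : i < a.length := hi
    simp [List.getD_eq_getElem?_getD, hi']

theorem bound (x₀ T d N : ℕ) (lu lc lU t c U lam n : ℝ) (hT : (1 : ℝ) ≤ T) (hTN : T ≤ N)
    (hd : (1 : ℝ) ≤ d) (hdN : d ≤ N) (hlam : 0 < lam) (hlamN : 1 / lam ≤ N)
    (hlu : lu ≤ t) (htN : t ≤ N) (hlc : lc ≤ c) (hcN : c ≤ N) (hlU : lU ≤ U) (hUN : U ≤ N)
    (hn : n ≤ 22 * T * x₀ + T / lam * (24200 * (1 + lu + lc) + 44 * lU +
      44 * d * Real.log (88 * d * T / lam))) : n ≤ 22 * N * x₀ + N * N *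
        (24200 * (1 + N + N) + 44 * N + 44 * N * (88 * N * N * N)) := by
  have hTN' : (T : ℝ) ≤ N := by exact_mod_cast hTN
  have hdN' : (d : ℝ) ≤ N := by exact_mod_cast hdN
  have hx : (0 : ℝ) ≤ x₀ := Nat.cast_nonneg x₀
  have hN : (0 : ℝ) ≤ N := Nat.cast_nonneg N
  have hT0 : (0 : ℝ) ≤ T := Nat.cast_nonneg T
  have hd0 : (0 : ℝ) ≤ d := Nat.cast_nonneg d
  have hl0 : 0 ≤ 1 / lam := by positivity
  have h1 : Real.log (88 * d * T / lam) ≤ 88 * N * N * N := by
    have h2 : 88 * (d : ℝ) * T / lam = 88 * d * T * (1 / lam) := by ring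
    have h3 : 88 * (d : ℝ) * T * (1 / lam) ≤ 88 * N * N * N := by
      have a1 : 88 * (d : ℝ) ≤ 88 * N := by linarith
      have a2 : 88 * (d : ℝ) * T ≤ 88 * N * N := mul_le_mul a1 hTN' hT0 (by positivity)
      exact mul_le_mul a2 hlamN hl0 (by positivity)
    have h4 : 0 < 88 * (d : ℝ) * T / lam := by positivity
    refine (Real.log_le_self h4.le).trans ?_
    rw [h2]
    exact h3
  have h5 : (T : ℝ) / lam ≤ N * N := by
    have : (T : ℝ) / lam = T * (1 / lam) := by ring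
    rw [this]
    exact mul_le_mul hTN' hlamN hl0 hN
  have h6 : 44 * (d : ℝ) * Real.log (88 * d * T / lam) ≤ 44 * N * (88 * N * N * N) := by
    calc 44 * (d : ℝ) * Real.log (88 * d * T / lam) ≤ 44 * d * (88 * N * N * N) :=
          mul_le_mul_of_nonneg_left h1 (by positivity)
      _ ≤ 44 * N * (88 * N * N * N) := mul_le_mul_of_nonneg_right (by linarith) (by positivity)
  have h7 : 24200 * (1 + lu + lc) + 44 * lU + 44 * d * Real.log (88 * d * T / lam) ≤
      24200 * (1 + N + N) + 44 * N + 44 * N * (88 * N * N * N) := by linarith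
  have h8 : T / lam * (24200 * (1 + lu + lc) + 44 * lU + 44 * d * Real.log (88 * d * T / lam)) ≤
      N * N * (24200 * (1 + N + N) + 44 * N + 44 * N * (88 * N * N * N)) := by
    calc T / lam * (24200 * (1 + lu + lc) + 44 * lU + 44 * d * Real.log (88 * d * T / lam))
        ≤ T / lam * (24200 * (1 + N + N) + 44 * N + 44 * N * (88 * N * N * N)) :=
          mul_le_mul_of_nonneg_left h7 (by positivity)
      _ ≤ N * N * (24200 * (1 + N + N) + 44 * N + 44 * N * (88 * N * N * N)) :=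
          mul_le_mul_of_nonneg_right h5 (by positivity)
  have h9 : 22 * (T : ℝ) * x₀ ≤ 22 * N * x₀ := mul_le_mul_of_nonneg_right (by linarith) hx
  linarith

end EDec

open EDec in
/-- One primitive recursive procedure for all families. -/
theorem decE : ∃ M : (List ℤ × List ℤ) × ℕ → Bool, Primrec M ∧
    ∀ (ρ : GaussianInt) (T : ℕ) (u : ℤ) (R lam : ℝ), 1 ≤ T → 120 ≤ u →
    (Associated (ρ ^ T) (bet u) ∨ Associated (ρ ^ T) (star (bet u))) → 1 ≤ R → 0 < lam → lam ≤ 1 →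
    40000 ^ 2 * R ^ (22 * T) * Real.exp lam ≤ (yy u : ℝ) ^ 9 →
    ∀ (h : GaussianInt[X]), h.Monic → 1 ≤ h.natDegree →
    (∀ z : ℂ, (h.map GaussianInt.toComplex).eval z = 0 → ‖z‖ ≤ R) →
    ∀ (W : ℕ → GaussianInt), RecP h W → ∀ U : ℝ, 1 ≤ U →
    (∀ i < h.natDegree, (((W i).norm : ℤ) : ℝ) ≤ U ^ 2) → ∀ c : ℤ, c ≠ 0 →
    ∀ (D : ℤ) (v : ℕ → ℤ), D ≠ 0 → (∀ n, D * v n = c + (ρ ^ n * W n).re) →
    ∀ a : List ℤ, 1 ≤ a.length → a.getD (a.length - 1) 0 ≠ 0 →
    (∀ n : ℕ, v (n + a.length) = ∑ j ∈ range a.length, a.getD j 0 * v (n + a.length - 1 - j)) →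
    ∀ N : ℕ, T ≤ N → h.natDegree ≤ N → (u : ℝ) ≤ N → |(c : ℝ)| ≤ N → U ≤ N → 1 / lam ≤ N →
    (M ((a, (List.range a.length).map v), N) = true ↔ ∃ n, v n = 0) := by
  classical
  obtain ⟨x₀, hTh⟩ : ∃ x₀, P44 x₀ := ⟨_, p44⟩
  refine ⟨fun p => decide (∃ n < Fb x₀ p.2, val p.1 n = 0), ?_, ?_⟩
  · have hR : PrimrecRel (fun (m : ℕ) (x : (List ℤ × List ℤ) × ℕ) => val x.1 m = 0) :=
      Primrec.eq.comp (primrec_val.comp (Primrec.fst.comp Primrec.snd) Primrec.fst)
        (Primrec.const 0)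
    have hb : Primrec (fun p : (List ℤ × List ℤ) × ℕ => Fb x₀ p.2) :=
      (primrec_F x₀).comp Primrec.snd
    exact ((rel_exists_lt hR).comp hb Primrec.id).decide.of_eq fun p => by simp
  · intro ρ T u R lam hT hu hass hR hlam hlam1 hcond h hmon hdeg hroots W hW U hU hWU c hc D v hD hv
      a ha1 ha2 hrec N hTN hdN huN hcN hUN hlN
    rw [decide_eq_true_eq]
    constructor
    · rintro ⟨n, _, hn⟩
      exact ⟨n, by rw [val_eq v a ha1 ha2 hrec n]; exact hn⟩
    · rintro ⟨n, hn⟩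
      refine ⟨n, ?_, by rw [← val_eq v a ha1 ha2 hrec n]; exact hn⟩
      have h0 : c + (ρ ^ n * W n).re = 0 := by rw [← hv n, hn, mul_zero]
      have h1 := lrsE x₀ hTh ρ T u R lam hT hu hass hR hlam hlam1 hcond h hmon hdeg hroots W hW U hU
        hWU c hc n h0
      have huR : (120 : ℝ) ≤ u := by exact_mod_cast hu
      have hcR : (1 : ℝ) ≤ |(c : ℝ)| := by
        have : 1 ≤ |c| := Int.one_le_abs hc
        exact_mod_cast this
      have h2 := bound x₀ T h.natDegree N (Real.log u) (Real.log |(c : ℝ)|) (Real.log U) u |(c : ℝ)|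
        U lam n (by exact_mod_cast hT) hTN (by exact_mod_cast hdeg) hdN hlam hlN
        (Real.log_le_self (by linarith)) huN (Real.log_le_self (by linarith)) hcN
        (Real.log_le_self (by linarith)) hUN h1
      have h3 : n ≤ 22 * N * x₀ + N * N *
          (24200 * (1 + N + N) + 44 * N + 44 * N * (88 * N * N * N)) := by exact_mod_cast h2
      show n < Fb x₀ N
      unfold Fb
      omega

end Pool.Agent.Work.MP_8d13b5_lc.Ex2
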