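import Pool.Agent.Work.MP_8d13b5_lc.Ex2.Cert

/-!
# MP_8d13b5_lc, module Ex2: the sums of `Λ (d) ((N / d) mod e)`
-/

set_option autoImplicit false

open Finset

namespace Pool.Agent.Work.MP_8d13b5_lc.Ex2

open scoped ArithmeticFunction.vonMangoldt

theorem log_fact (N : ℕ) : Real.log (N.factorial : ℝ) = ∑ m ∈ Ioc 0 N, Real.log m := by
  induction N with
  | zero => simp
  | succ N ih =>
    rw [Nat.factorial_succ, Finset.sum_Ioc_succ_top (Nat.zero_le N), ← ih]
    push_cast
    rw [Real.log_mul (by positivity) (by positivity)]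
    ring

theorem log_fact_eq (N : ℕ) :
    Real.log (N.factorial : ℝ) = ∑ d ∈ Ioc 0 N, Λ d * ((N / d : ℕ) : ℝ) := by
  rw [log_fact]
  have h1 : ∀ m ∈ Ioc 0 N, Real.log m = ∑ d ∈ Ioc 0 N, if d ∣ m then Λ d else 0 := by
    intro m hm
    rw [mem_Ioc] at hm
    rw [← ArithmeticFunction.vonMangoldt_sum, ← sum_filter]
    refine sum_congr ?_ fun _ _ => rfl
    ext d
    simp only [Nat.mem_divisors, mem_filter, mem_Ioc]
    constructor
    · rintro ⟨h, h0⟩
      exact ⟨⟨Nat.pos_of_dvd_of_pos h hm.1, (Nat.le_of_dvd hm.1 h).trans hm.2⟩, h⟩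
    · rintro ⟨_, h⟩
      exact ⟨h, by omega⟩
  rw [sum_congr rfl h1, sum_comm]
  refine sum_congr rfl fun d _ => ?_
  rw [← sum_filter, sum_const, nsmul_eq_mul, Nat.Ioc_filter_dvd_card_eq_div, mul_comm]

theorem log_add_one_sub {x : ℝ} (hx : 1 ≤ x) :
    1 / (x + 1) ≤ Real.log (x + 1) - Real.log x ∧ Real.log (x + 1) - Real.log x ≤ 1 / x := by
  have hx0 : 0 < x := by linarith
  have h0 : Real.log (x + 1) - Real.log x = Real.log ((x + 1) / x) := by
    rw [Real.log_div (by positivity) (by positivity)]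
  constructor
  · have h1 := Real.one_sub_inv_le_log_of_pos (show 0 < (x + 1) / x by positivity)
    rw [h0]
    refine le_trans (le_of_eq ?_) h1
    field_simp
    ring
  · have h1 := Real.log_le_sub_one_of_pos (show 0 < (x + 1) / x by positivity)
    rw [h0]
    refine le_trans h1 (le_of_eq ?_)
    field_simp
    ring

theorem fact_bounds (M : ℕ) (hM : 1 ≤ M) :
    (M : ℝ) * Real.log M - M ≤ Real.log (M.factorial : ℝ) ∧
    Real.log (M.factorial : ℝ) ≤ (M : ℝ) * Real.log M - M + Real.log M + 1 := by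
  induction M, hM using Nat.le_induction with
  | base => simp
  | succ M hM ih =>
    obtain ⟨ih1, ih2⟩ := ih
    have hM1 : (1 : ℝ) ≤ M := by exact_mod_cast hM
    obtain ⟨h1, h2⟩ := log_add_one_sub hM1
    have h3 : Real.log ((M + 1).factorial : ℝ) = Real.log (M.factorial : ℝ) + Real.log (M + 1) := by
      rw [Nat.factorial_succ]
      push_cast
      rw [Real.log_mul (by positivity) (by positivity)]
      ring
    rw [div_le_iff₀ (by positivity)] at h1
    rw [le_div_iff₀ (by positivity)] at h2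
    rw [h3]
    push_cast
    constructor <;> nlinarith

/-- the main term -/
noncomputable def hS (x : ℝ) : ℝ := x * Real.log x - x

theorem hS_bounds {M x : ℝ} (hM : 1 ≤ M) (h1 : M ≤ x) (h2 : x ≤ M + 1) :
    hS M ≤ hS x ∧ hS x ≤ hS M + Real.log x := by
  have hx : 1 ≤ x := hM.trans h1
  have hM0 : 0 < M := by linarith
  have hx0 : 0 < x := by linarith
  have e1 : Real.log x - Real.log M = Real.log (x / M) := by
    rw [Real.log_div (by positivity) (by positivity)]
  have e2 := Real.one_sub_inv_le_log_of_pos (show 0 < x / M by positivity)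
  have e3 := Real.log_le_sub_one_of_pos (show 0 < x / M by positivity)
  rw [← e1] at e2 e3
  have e4 : x - M ≤ x * (Real.log x - Real.log M) := by
    have h : x * (1 - (x / M)⁻¹) = x - M := by
      field_simp
    rw [← h]
    exact mul_le_mul_of_nonneg_left e2 hx0.le
  have e5 : M * (Real.log x - Real.log M) ≤ x - M := by
    have h : M * (x / M - 1) = x - M := by
      field_simp
    rw [← h]
    exact mul_le_mul_of_nonneg_left e3 hM0.le
  have hlM : 0 ≤ Real.log M := Real.log_nonneg hM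
  have hlx : 0 ≤ Real.log x := Real.log_nonneg hx
  unfold hS
  constructor
  · nlinarith
  · nlinarith

theorem fact_div (N e : ℕ) (he : 1 ≤ e) (heN : e ≤ N) :
    |Real.log ((N / e).factorial : ℝ) - hS ((N : ℝ) / e)| ≤ Real.log N + 1 := by
  have heR : (1 : ℝ) ≤ e := by exact_mod_cast he
  have hM : 1 ≤ N / e := (Nat.one_le_div_iff (by omega)).2 heN
  have hMR : (1 : ℝ) ≤ ((N / e : ℕ) : ℝ) := by exact_mod_cast hM
  have h1 : ((N / e : ℕ) : ℝ) ≤ (N : ℝ) / e := Nat.cast_div_le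
  have h2 : (N : ℝ) / e ≤ ((N / e : ℕ) : ℝ) + 1 := by
    rw [div_le_iff₀ (by linarith)]
    have := Nat.lt_div_mul_add (a := N) (b := e) (by omega)
    have h6 : (N : ℝ) < ((N / e : ℕ) : ℝ) * e + e := by exact_mod_cast this
    linarith
  obtain ⟨a1, a2⟩ := fact_bounds _ hM
  obtain ⟨b1, b2⟩ := hS_bounds hMR h1 h2
  have hx : Real.log ((N : ℝ) / e) ≤ Real.log N := by
    refine Real.log_le_log (by linarith) ?_
    exact div_le_self (Nat.cast_nonneg _) heR
  have hl : Real.log ((N / e : ℕ) : ℝ) ≤ Real.log N := by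
    refine Real.log_le_log (by linarith) (h1.trans ?_)
    exact div_le_self (Nat.cast_nonneg _) heR
  have h0 : 0 ≤ Real.log N := by
    refine Real.log_nonneg ?_
    exact_mod_cast he.trans heN
  unfold hS at *
  rw [abs_le]
  constructor <;> linarith

/-- the sum for one `e` -/
theorem sum_mod_eq (N e : ℕ) (he : 1 ≤ e) :
    ∑ d ∈ Ioc 0 N, Λ d * ((N / d % e : ℕ) : ℝ) =
      Real.log (N.factorial : ℝ) - e * Real.log ((N / e).factorial : ℝ) := by
  have h1 : Real.log ((N / e).factorial : ℝ) = ∑ d ∈ Ioc 0 N, Λ d * ((N / d / e : ℕ) : ℝ) := by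
    rw [log_fact_eq]
    have hsub : Ioc 0 (N / e) ⊆ Ioc 0 N := Ioc_subset_Ioc_right (Nat.div_le_self _ _)
    rw [← sum_subset hsub]
    · refine sum_congr rfl fun d _ => ?_
      rw [Nat.div_div_eq_div_mul, Nat.div_div_eq_div_mul, mul_comm e d]
    · intro d hd hd'
      rw [mem_Ioc] at hd hd'
      have h2 : N / d / e = 0 := by
        rw [Nat.div_div_eq_div_mul, mul_comm d e, ← Nat.div_div_eq_div_mul]
        exact Nat.div_eq_of_lt (by omega)
      rw [h2]
      simp
  rw [h1, log_fact_eq, mul_sum, ← sum_sub_distrib]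
  refine sum_congr rfl fun d _ => ?_
  have h2 : ((N / d % e : ℕ) : ℝ) = ((N / d : ℕ) : ℝ) - e * ((N / d / e : ℕ) : ℝ) := by
    have := Nat.mod_add_div (N / d) e
    have h3 : ((N / d % e : ℕ) : ℝ) + (e : ℝ) * ((N / d / e : ℕ) : ℝ) = ((N / d : ℕ) : ℝ) := by
      exact_mod_cast this
    linarith
  rw [h2]
  ring

theorem sum_mod (N e : ℕ) (he : 1 ≤ e) (heN : e ≤ N) :
    |∑ d ∈ Ioc 0 N, Λ d * ((N / d % e : ℕ) : ℝ) - N * Real.log e| ≤
      (e + 1) * (Real.log N + 1) := by
  rw [sum_mod_eq N e he]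
  have hN : 1 ≤ N := he.trans heN
  have h1 := fact_div N 1 le_rfl hN
  have h2 := fact_div N e he heN
  rw [Nat.div_one, Nat.cast_one, div_one] at h1
  have heR : (0 : ℝ) < e := by exact_mod_cast he
  have hNR : (0 : ℝ) < N := by exact_mod_cast hN
  have h3 : hS N - e * hS ((N : ℝ) / e) = N * Real.log e := by
    unfold hS
    rw [Real.log_div (by positivity) (by positivity)]
    field_simp
    ring
  have h4 : Real.log (N.factorial : ℝ) - e * Real.log ((N / e).factorial : ℝ) - N * Real.log e =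
      (Real.log (N.factorial : ℝ) - hS N) -
        e * (Real.log ((N / e).factorial : ℝ) - hS ((N : ℝ) / e)) := by
    rw [← h3]
    ring
  rw [h4]
  refine (abs_sub _ _).trans ?_
  rw [abs_mul, abs_of_pos heR]
  nlinarith

theorem sum_list (N : ℕ) (l : List (ℕ × ℕ)) (hl : ∀ q ∈ l, 1 ≤ q.1 ∧ q.1 ≤ N) :
    |∑ d ∈ Ioc 0 N, Λ d * ((fL l (N / d) : ℕ) : ℝ) -
      N * (l.map fun q => (q.2 : ℝ) * Real.log q.1).sum| ≤
      ((l.map fun q => q.2 * (q.1 + 1)).sum : ℕ) * (Real.log N + 1) := by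
  induction l with
  | nil => simp [fL]
  | cons q l ih =>
    have ih' := ih fun p hp => hl p (List.mem_cons_of_mem q hp)
    obtain ⟨hq1, hq2⟩ := hl q List.mem_cons_self
    have h1 := sum_mod N q.1 hq1 hq2
    have h2 : ∑ d ∈ Ioc 0 N, Λ d * ((fL (q :: l) (N / d) : ℕ) : ℝ) =
        q.2 * ∑ d ∈ Ioc 0 N, Λ d * ((N / d % q.1 : ℕ) : ℝ) +
          ∑ d ∈ Ioc 0 N, Λ d * ((fL l (N / d) : ℕ) : ℝ) := by
      rw [mul_sum, ← sum_add_distrib]
      refine sum_congr rfl fun d _ => ?_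
      have h3 : fL (q :: l) (N / d) = q.2 * (N / d % q.1) + fL l (N / d) := by
        simp [fL]
      rw [h3]
      push_cast
      ring
    rw [h2, List.map_cons, List.sum_cons, List.map_cons, List.sum_cons]
    have h4 : q.2 * ∑ d ∈ Ioc 0 N, Λ d * ((N / d % q.1 : ℕ) : ℝ) +
          ∑ d ∈ Ioc 0 N, Λ d * ((fL l (N / d) : ℕ) : ℝ) -
          N * (q.2 * Real.log q.1 + (l.map fun q => (q.2 : ℝ) * Real.log q.1).sum) =
        q.2 * (∑ d ∈ Ioc 0 N, Λ d * ((N / d % q.1 : ℕ) : ℝ) - N * Real.log q.1) +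
        (∑ d ∈ Ioc 0 N, Λ d * ((fL l (N / d) : ℕ) : ℝ) -
          N * (l.map fun q => (q.2 : ℝ) * Real.log q.1).sum) := by ring
    rw [h4]
    refine (abs_add_le _ _).trans ?_
    rw [abs_mul, abs_of_nonneg (Nat.cast_nonneg q.2)]
    push_cast at ih' ⊢
    have h5 : (q.2 : ℝ) * |∑ d ∈ Ioc 0 N, Λ d * ((N / d % q.1 : ℕ) : ℝ) - N * Real.log q.1| ≤
        q.2 * ((q.1 + 1) * (Real.log N + 1)) := mul_le_mul_of_nonneg_left h1 (Nat.cast_nonneg _)
    linarith

theorem log_prL (l : List (ℕ × ℕ)) (hl : ∀ q ∈ l, 1 ≤ q.1) :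
    0 < prL l ∧ Real.log (prL l) = (l.map fun q => (q.2 : ℝ) * Real.log q.1).sum := by
  induction l with
  | nil => simp [prL]
  | cons q l ih =>
    obtain ⟨h1, h2⟩ := ih fun p hp => hl p (List.mem_cons_of_mem q hp)
    have hq := hl q List.mem_cons_self
    have h3 : prL (q :: l) = q.1 ^ q.2 * prL l := by simp [prL]
    have h4 : 0 < q.1 ^ q.2 := Nat.pow_pos hq
    refine ⟨by rw [h3]; exact Nat.mul_pos h4 h1, ?_⟩
    rw [h3, List.map_cons, List.sum_cons, ← h2]
    push_cast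
    rw [Real.log_mul, Real.log_pow]
    · exact_mod_cast h4.ne'
    · exact_mod_cast h1.ne'

end Pool.Agent.Work.MP_8d13b5_lc.Ex2
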