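import Mathlib

/-!
# MP_8d13b5_lc, module Ex2: the Selberg weights

The facts on the Selberg weights are copied from `Work/MP_d159ed_nt/Bd/B03.lean` (definitions) and
`Work/MP_d159ed_nt/Bd/B04.lean` (items C1 and C2).
-/

set_option autoImplicit false

section

namespace Pool.Agent.Work.MP_8d13b5_lc.Ex2.Sel

open Finset
open scoped BigOperators

/-- squarefree numbers up to R coprime to h -/
def Dset (h R : ℕ) : Finset ℕ := (Icc 1 R).filter (fun d => Squarefree d ∧ Nat.Coprime d h)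

/-- primes up to R not dividing h -/
def Pr (h R : ℕ) : Finset ℕ := (Icc 1 R).filter (fun p => p.Prime ∧ Nat.Coprime p h)

/-- the Selberg sum G -/
noncomputable def Gs (h R : ℕ) : ℝ := ∑ d ∈ Dset h R, (1 : ℝ) / (Nat.totient d : ℝ)

/-- the Selberg weights -/
noncomputable def lam (h R d : ℕ) : ℝ :=
  if d ∈ Dset h R then
    (ArithmeticFunction.moebius d : ℝ) * ((d : ℝ) / (Nat.totient d : ℝ)) *
      (∑ m ∈ (Dset h R).filter (fun m => Nat.Coprime m d ∧ m * d ≤ R),
        (1 : ℝ) / (Nat.totient m : ℝ)) / Gs h R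
  else 0

/-- the divisor sum -/
noncomputable def Lam (h R n : ℕ) : ℝ := ∑ d ∈ (Dset h R).filter (fun d => d ∣ n), lam h R d

/-- C1: elementary facts on the weights. -/
def ClaimC1 : Prop :=
  ∀ h R : ℕ, 1 ≤ h → 1 ≤ R →
    lam h R 1 = 1 ∧ (∀ d, |lam h R d| ≤ 1) ∧
    ((Nat.totient h : ℝ) / (h : ℝ) * Real.log R ≤ Gs h R) ∧ 1 ≤ Gs h R ∧
    Gs h R ≤ (1 + Real.log R) ^ 2 ∧
    (∀ n : ℕ, n.Prime → R < n → Lam h R n = 1)

/-- C2': the exact value of the quadratic form. -/
def ClaimC2' : Prop :=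
  ∀ h R : ℕ, 1 ≤ h → 1 ≤ R →
    ∑ e ∈ Dset h R, ∑ f ∈ Dset h R, lam h R e * lam h R f / (Nat.lcm e f : ℝ) = 1 / Gs h R

end Pool.Agent.Work.MP_8d13b5_lc.Ex2.Sel

end

section

/-!
# Elementary facts on the Selberg weights
-/

set_option autoImplicit false

namespace Pool.Agent.Work.MP_8d13b5_lc.Ex2.Sel

open Finset
open scoped BigOperators

namespace C1

lemma mem_Dset {h R d : ℕ} :
    d ∈ Dset h R ↔ (1 ≤ d ∧ d ≤ R) ∧ Squarefree d ∧ Nat.Coprime d h := by
  simp [Dset, mem_filter, mem_Icc]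

lemma one_mem_Dset {h R : ℕ} (hR : 1 ≤ R) : 1 ∈ Dset h R := by
  rw [mem_Dset]
  exact ⟨⟨le_refl _, hR⟩, squarefree_one, Nat.coprime_one_left h⟩

lemma phi_pos {d : ℕ} (hd : 1 ≤ d) : (0 : ℝ) < (Nat.totient d : ℝ) := by
  exact_mod_cast Nat.totient_pos.mpr hd

lemma one_le_Gs {h R : ℕ} (hR : 1 ≤ R) : 1 ≤ Gs h R := by
  unfold Gs
  have := Finset.single_le_sum (f := fun d : ℕ => (1 : ℝ) / (Nat.totient d : ℝ))
    (s := Dset h R) (fun d _ => by positivity) (one_mem_Dset hR)
  simpa using this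

lemma lam_one {h R : ℕ} (hR : 1 ≤ R) : lam h R 1 = 1 := by
  have hG : Gs h R ≠ 0 := by
    have := one_le_Gs (h := h) hR
    positivity
  unfold lam
  rw [if_pos (one_mem_Dset hR)]
  have hf : (Dset h R).filter (fun m => Nat.Coprime m 1 ∧ m * 1 ≤ R) = Dset h R := by
    apply Finset.filter_true_of_mem
    intro m hm
    rw [mem_Dset] at hm
    refine ⟨Nat.coprime_one_right m, ?_⟩
    rw [mul_one]
    exact hm.1.2
  rw [hf]
  have : (∑ m ∈ Dset h R, (1 : ℝ) / (Nat.totient m : ℝ)) = Gs h R := rfl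
  rw [this]
  simp [hG]

lemma totient_mul_div {d l : ℕ} (hd : Squarefree d) (hl : l ∣ d) :
    Nat.totient l * Nat.totient (d / l) = Nat.totient d := by
  obtain ⟨m, rfl⟩ := hl
  have hl0 : 0 < l := Nat.pos_of_ne_zero (fun h0 => by
    subst h0; simp at hd)
  rw [Nat.mul_div_cancel_left m hl0]
  exact (Nat.totient_mul (Nat.coprime_of_squarefree_mul hd)).symm

lemma sum_inv_totient {d : ℕ} (hd : Squarefree d) :
    ∑ l ∈ d.divisors, (1 : ℝ) / (Nat.totient l : ℝ) = (d : ℝ) / (Nat.totient d : ℝ) := by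
  have hd0 : d ≠ 0 := hd.ne_zero
  have h1 : ∀ l ∈ d.divisors, (1 : ℝ) / (Nat.totient l : ℝ) =
      (Nat.totient (d / l) : ℝ) / (Nat.totient d : ℝ) := by
    intro l hl
    have hl' := Nat.dvd_of_mem_divisors hl
    have hmul := totient_mul_div hd hl'
    have hl1 : 1 ≤ l := Nat.pos_of_mem_divisors hl
    have p1 := phi_pos hl1
    have p2 := phi_pos (Nat.one_le_iff_ne_zero.mpr hd0)
    rw [div_eq_div_iff p1.ne' p2.ne']
    rw [one_mul, ← hmul]
    push_cast
    ring
  rw [Finset.sum_congr rfl h1, ← Finset.sum_div]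
  congr 1
  have h2 : ∑ l ∈ d.divisors, (Nat.totient (d / l)) = d := by
    rw [Nat.sum_div_divisors d Nat.totient]
    exact Nat.sum_totient d
  exact_mod_cast h2

/-- A general splitting inequality. -/
lemma split_le {d h R : ℕ} (hd : Squarefree d) (hdh : Nat.Coprime d h) :
    (d : ℝ) / (Nat.totient d : ℝ) *
      (∑ m ∈ (Dset h R).filter (fun m => Nat.Coprime m d ∧ m * d ≤ R),
        (1 : ℝ) / (Nat.totient m : ℝ)) ≤ Gs h R := by
  rw [← sum_inv_totient hd, Finset.sum_mul_sum, ← Finset.sum_product']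
  have h1 : ∀ x ∈ d.divisors ×ˢ (Dset h R).filter (fun m => Nat.Coprime m d ∧ m * d ≤ R),
      (1 : ℝ) / (Nat.totient x.1 : ℝ) * ((1 : ℝ) / (Nat.totient x.2 : ℝ)) =
        (1 : ℝ) / (Nat.totient (x.1 * x.2) : ℝ) := by
    rintro ⟨l, m⟩ hx
    simp only [Finset.mem_product, Nat.mem_divisors, Finset.mem_filter] at hx
    have hc : Nat.Coprime l m := (Nat.Coprime.coprime_dvd_right hx.1.1 hx.2.2.1).symm
    rw [Nat.totient_mul hc]
    push_cast
    rw [div_mul_div_comm, one_mul]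
  rw [Finset.sum_congr rfl h1]
  have hinj : Set.InjOn (fun x : ℕ × ℕ => x.1 * x.2)
      ↑(d.divisors ×ˢ (Dset h R).filter (fun m => Nat.Coprime m d ∧ m * d ≤ R)) := by
    rintro ⟨l, m⟩ hx ⟨l', m'⟩ hx' heq
    simp only [Finset.coe_product, Set.mem_prod, Finset.mem_coe, Nat.mem_divisors,
      Finset.mem_filter] at hx hx' heq
    have g1 : Nat.gcd (l * m) d = l := by
      rw [Nat.Coprime.gcd_mul_right_cancel l hx.2.2.1]
      exact Nat.gcd_eq_left hx.1.1
    have g2 : Nat.gcd (l' * m') d = l' := by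
      rw [Nat.Coprime.gcd_mul_right_cancel l' hx'.2.2.1]
      exact Nat.gcd_eq_left hx'.1.1
    have hl : l = l' := by rw [← g1, ← g2, heq]
    subst hl
    have hl0 : 0 < l := Nat.pos_of_dvd_of_pos hx.1.1 (Nat.pos_of_ne_zero hx.1.2)
    have hm : m = m' := Nat.eq_of_mul_eq_mul_left hl0 heq
    rw [hm]
  have himg := Finset.sum_image (f := fun n : ℕ => (1 : ℝ) / (Nat.totient n : ℝ)) hinj
  rw [← himg]
  unfold Gs
  apply Finset.sum_le_sum_of_subset_of_nonneg
  · intro n hn
    simp only [Finset.mem_image, Finset.mem_product, Nat.mem_divisors, Finset.mem_filter,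
      Prod.exists, mem_Dset] at hn
    obtain ⟨l, m, ⟨⟨hl, hd0⟩, ⟨⟨⟨hm1, hm2⟩, hmsq, hmh⟩, hmd, hmR⟩⟩, rfl⟩ := hn
    have hl0 : 0 < l := Nat.pos_of_dvd_of_pos hl (Nat.pos_of_ne_zero hd0)
    rw [mem_Dset]
    refine ⟨⟨Nat.mul_pos hl0 hm1, ?_⟩, ?_, ?_⟩
    · calc l * m ≤ d * m := Nat.mul_le_mul_right m (Nat.le_of_dvd (Nat.pos_of_ne_zero hd0) hl)
        _ = m * d := mul_comm _ _
        _ ≤ R := hmR
    · have hc : Nat.Coprime l m := (Nat.Coprime.coprime_dvd_right hl hmd).symm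
      exact (Nat.squarefree_mul hc).mpr ⟨hd.squarefree_of_dvd hl, hmsq⟩
    · exact Nat.Coprime.mul_left (Nat.Coprime.coprime_dvd_left hl hdh) hmh
  · intro n _ _
    positivity

lemma abs_lam_le {h R : ℕ} (hR : 1 ≤ R) (d : ℕ) : |lam h R d| ≤ 1 := by
  unfold lam
  split_ifs with hd
  · rw [mem_Dset] at hd
    have hG := one_le_Gs (h := h) hR
    have hG0 : 0 < Gs h R := by linarith
    have hs := split_le (h := h) (R := R) hd.2.1 hd.2.2
    have hmu : |(ArithmeticFunction.moebius d : ℝ)| ≤ 1 := by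
      have := ArithmeticFunction.abs_moebius_le_one (n := d)
      exact_mod_cast this
    rw [abs_div, abs_of_pos hG0, div_le_one hG0, mul_assoc, abs_mul]
    have hnn : 0 ≤ (d : ℝ) / (Nat.totient d : ℝ) *
      (∑ m ∈ (Dset h R).filter (fun m => Nat.Coprime m d ∧ m * d ≤ R),
        (1 : ℝ) / (Nat.totient m : ℝ)) := by
      apply mul_nonneg
      · positivity
      · exact Finset.sum_nonneg (fun _ _ => by positivity)
    rw [abs_of_nonneg hnn]
    calc |(ArithmeticFunction.moebius d : ℝ)| * _ ≤ 1 * _ :=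
          mul_le_mul_of_nonneg_right hmu hnn
      _ ≤ Gs h R := by rw [one_mul]; exact hs
  · simp


/-- product of the primes dividing n -/
def rad (n : ℕ) : ℕ := ∏ p ∈ n.primeFactors, p

lemma rad_squarefree (n : ℕ) : Squarefree (rad n) := by
  have h := UniqueFactorizationMonoid.squarefree_radical (a := n)
  rwa [Nat.radical_eq_prod_primeFactors] at h

lemma rad_dvd (n : ℕ) : rad n ∣ n := Nat.prod_primeFactors_dvd n

lemma primeFactors_rad (n : ℕ) : (rad n).primeFactors = n.primeFactors :=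
  Nat.primeFactors_prod_primeFactors n

lemma rad_of_squarefree {n : ℕ} (h : Squarefree n) : rad n = n :=
  Nat.prod_primeFactors_of_squarefree h

/-- the homomorphism n ↦ 1 / n -/
noncomputable def invHom : ℕ →* ℝ :=
  (invMonoidWithZeroHom : ℝ →*₀ ℝ).toMonoidHom.comp (Nat.castRingHom ℝ).toMonoidHom

lemma invHom_apply (n : ℕ) : invHom n = (n : ℝ)⁻¹ := rfl

lemma totient_div (d : ℕ) (hd : 1 ≤ d) :
    (Nat.totient d : ℝ) / (d : ℝ) = ∏ p ∈ d.primeFactors, (1 - (p : ℝ)⁻¹) := by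
  have h := Nat.totient_eq_mul_prod_factors d
  have h' : (Nat.totient d : ℝ) = (d : ℝ) * ∏ p ∈ d.primeFactors, (1 - (p : ℝ)⁻¹) := by
    have h2 := congrArg (Rat.cast : ℚ → ℝ) h
    push_cast at h2
    exact h2
  rw [h']
  have : (d : ℝ) ≠ 0 := by positivity
  field_simp

lemma fiber_le {d : ℕ} (hd : Squarefree d) (S : Finset ℕ)
    (hS : ∀ n ∈ S, n ≠ 0 ∧ n.primeFactors = d.primeFactors) :
    ∑ n ∈ S, (1 : ℝ) / (n : ℝ) ≤ 1 / (Nat.totient d : ℝ) := by
  have hd0 : d ≠ 0 := hd.ne_zero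
  have hd1 : 1 ≤ d := Nat.one_le_iff_ne_zero.mpr hd0
  have hdvd : ∀ n ∈ S, d ∣ n := by
    intro n hn
    have h1 : rad n = d := by
      rw [← rad_of_squarefree hd]
      unfold rad
      rw [(hS n hn).2]
    rw [← h1]
    exact rad_dvd n
  have hinj : Set.InjOn (fun n : ℕ => n / d) ↑S := by
    intro a ha b hb hab
    simp only at hab
    have := hdvd a ha
    have h2 := hdvd b hb
    rw [← Nat.div_mul_cancel this, ← Nat.div_mul_cancel h2, hab]
  have hlt : ∀ {p : ℕ}, p.Prime → ‖invHom p‖ < 1 := by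
    intro p hp
    rw [invHom_apply, norm_inv, Real.norm_natCast]
    have : (1 : ℝ) < p := by exact_mod_cast hp.one_lt
    exact inv_lt_one_of_one_lt₀ this
  have hsum := (EulerProduct.summable_and_hasSum_factoredNumbers_prod_filter_prime_geometric
    (f := invHom) hlt d.primeFactors).2
  have hfilter : d.primeFactors.filter Nat.Prime = d.primeFactors := by
    apply Finset.filter_true_of_mem
    intro p hp
    exact Nat.prime_of_mem_primeFactors hp
  have hT : ∀ m ∈ S.image (fun n : ℕ => n / d), m ∈ Nat.factoredNumbers d.primeFactors := by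
    intro m hm
    rw [Finset.mem_image] at hm
    obtain ⟨n, hn, rfl⟩ := hm
    have hn0 := (hS n hn).1
    have hdn := hdvd n hn
    have hnd : n / d ≠ 0 := by
      intro h0
      apply hn0
      rw [← Nat.div_mul_cancel hdn, h0, zero_mul]
    rw [Nat.mem_factoredNumbers_iff_primeFactors_subset]
    refine ⟨hnd, ?_⟩
    rw [← (hS n hn).2]
    exact Nat.primeFactors_mono (Nat.div_dvd_of_dvd hdn) hn0
  have hle : ∑ m ∈ S.image (fun n : ℕ => n / d), invHom m ≤
      ∏ p ∈ d.primeFactors, (1 - invHom p)⁻¹ := by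
    have h1 := sum_le_hasSum ((S.image (fun n : ℕ => n / d)).subtype
      (fun m => m ∈ Nat.factoredNumbers d.primeFactors)) (fun i _ => by
        rw [invHom_apply]; positivity) hsum
    rw [Finset.sum_subtype_of_mem (fun m => invHom m) hT, hfilter] at h1
    exact h1
  rw [Finset.sum_image hinj] at hle
  have hterm : ∀ n ∈ S, (1 : ℝ) / (n : ℝ) = (1 / (d : ℝ)) * invHom (n / d) := by
    intro n hn
    rw [invHom_apply, Nat.cast_div (hdvd n hn) (by exact_mod_cast hd0)]
    have : (n : ℝ) ≠ 0 := by exact_mod_cast (hS n hn).1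
    have : (d : ℝ) ≠ 0 := by exact_mod_cast hd0
    field_simp
  rw [Finset.sum_congr rfl hterm, ← Finset.mul_sum]
  have hprod : ∏ p ∈ d.primeFactors, (1 - invHom p)⁻¹ = (d : ℝ) / (Nat.totient d : ℝ) := by
    rw [Finset.prod_inv_distrib]
    have := totient_div d hd1
    simp only [invHom_apply]
    rw [← this, inv_div]
  rw [hprod] at hle
  have hdpos : (0 : ℝ) < d := by exact_mod_cast hd1
  calc (1 / (d : ℝ)) * ∑ n ∈ S, invHom (n / d) ≤ (1 / (d : ℝ)) * ((d : ℝ) / (Nat.totient d : ℝ)) :=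
        mul_le_mul_of_nonneg_left hle (by positivity)
    _ = 1 / (Nat.totient d : ℝ) := by
        have := phi_pos hd1
        field_simp

lemma harmonic_le_Gs_one (R : ℕ) : ∑ n ∈ Icc 1 R, (1 : ℝ) / (n : ℝ) ≤ Gs 1 R := by
  have hmaps : ∀ n ∈ Icc 1 R, rad n ∈ Dset 1 R := by
    intro n hn
    rw [mem_Icc] at hn
    rw [mem_Dset]
    have hn0 : 0 < n := hn.1
    refine ⟨⟨?_, ?_⟩, rad_squarefree n, Nat.coprime_one_right _⟩
    · exact Nat.pos_of_dvd_of_pos (rad_dvd n) hn0
    · exact (Nat.le_of_dvd hn0 (rad_dvd n)).trans hn.2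
  rw [← Finset.sum_fiberwise_of_maps_to hmaps]
  unfold Gs
  apply Finset.sum_le_sum
  intro d hd
  rw [mem_Dset] at hd
  apply fiber_le hd.2.1
  intro n hn
  rw [mem_filter, mem_Icc] at hn
  refine ⟨by omega, ?_⟩
  rw [← hn.2, primeFactors_rad]

lemma Gs_one_le {h R : ℕ} (hh : 1 ≤ h) :
    Gs 1 R ≤ (h : ℝ) / (Nat.totient h : ℝ) * Gs h R := by
  have hr1 : 1 ≤ rad h := Nat.pos_of_dvd_of_pos (rad_dvd h) hh
  have hrad : (h : ℝ) / (Nat.totient h : ℝ) = (rad h : ℝ) / (Nat.totient (rad h) : ℝ) := by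
    have h1 := totient_div h hh
    have h2 := totient_div (rad h) hr1
    rw [primeFactors_rad, ← h1] at h2
    rw [← inv_div, ← h2, inv_div]
  rw [hrad, ← sum_inv_totient (rad_squarefree h)]
  unfold Gs
  rw [Finset.sum_mul_sum, ← Finset.sum_product']
  have hkey : ∀ d ∈ Dset 1 R, Nat.gcd d h ∣ rad h ∧ d / Nat.gcd d h ∈ Dset h R ∧
      Nat.totient d = Nat.totient (Nat.gcd d h) * Nat.totient (d / Nat.gcd d h) := by
    intro d hd
    rw [mem_Dset] at hd
    have hsq := hd.2.1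
    have hgd : Nat.gcd d h ∣ d := Nat.gcd_dvd_left d h
    have hgh : Nat.gcd d h ∣ h := Nat.gcd_dvd_right d h
    have hgsq : Squarefree (Nat.gcd d h) := hsq.squarefree_of_dvd hgd
    refine ⟨?_, ?_, ?_⟩
    · rw [← rad_of_squarefree hgsq]
      unfold rad
      apply Finset.prod_dvd_prod_of_subset
      exact Nat.primeFactors_mono hgh (by omega)
    · rw [mem_Dset]
      refine ⟨⟨?_, ?_⟩, ?_, ?_⟩
      · exact Nat.div_pos (Nat.le_of_dvd hd.1.1 hgd) (Nat.gcd_pos_of_pos_left _ hd.1.1)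
      · exact (Nat.div_le_self _ _).trans hd.1.2
      · exact hsq.squarefree_of_dvd (Nat.div_dvd_of_dvd hgd)
      · rw [Nat.coprime_iff_gcd_eq_one]
        by_contra hne
        obtain ⟨p, hp, hpd⟩ := Nat.exists_prime_and_dvd hne
        have hp1 : p ∣ d / Nat.gcd d h := hpd.trans (Nat.gcd_dvd_left _ _)
        have hp2 : p ∣ h := hpd.trans (Nat.gcd_dvd_right _ _)
        have hp3 : p ∣ d := hp1.trans (Nat.div_dvd_of_dvd hgd)
        have hp4 : p ∣ Nat.gcd d h := Nat.dvd_gcd hp3 hp2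
        have hp5 : p * p ∣ d := by
          rw [← Nat.div_mul_cancel hgd]
          exact Nat.mul_dvd_mul hp1 hp4
        have := hsq p hp5
        exact hp.one_lt.ne' (Nat.isUnit_iff.mp this)
    · exact (totient_mul_div hsq hgd).symm
  have hinj : Set.InjOn (fun d : ℕ => (Nat.gcd d h, d / Nat.gcd d h)) ↑(Dset 1 R) := by
    intro a ha b hb hab
    simp only [Prod.mk.injEq] at hab
    rw [← Nat.div_mul_cancel (Nat.gcd_dvd_left a h), ← Nat.div_mul_cancel (Nat.gcd_dvd_left b h),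
      hab.2, hab.1]
  have hterm : ∀ d ∈ Dset 1 R, (1 : ℝ) / (Nat.totient d : ℝ) =
      (fun x : ℕ × ℕ => (1 : ℝ) / (Nat.totient x.1 : ℝ) * ((1 : ℝ) / (Nat.totient x.2 : ℝ)))
        ((fun d : ℕ => (Nat.gcd d h, d / Nat.gcd d h)) d) := by
    intro d hd
    simp only
    rw [(hkey d hd).2.2]
    push_cast
    rw [div_mul_div_comm, one_mul]
  rw [Finset.sum_congr rfl hterm, ← Finset.sum_image (f := fun x : ℕ × ℕ =>
    (1 : ℝ) / (Nat.totient x.1 : ℝ) * ((1 : ℝ) / (Nat.totient x.2 : ℝ))) hinj]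
  apply Finset.sum_le_sum_of_subset_of_nonneg
  · intro x hx
    rw [Finset.mem_image] at hx
    obtain ⟨d, hd, rfl⟩ := hx
    rw [Finset.mem_product, Nat.mem_divisors]
    exact ⟨⟨(hkey d hd).1, by omega⟩, (hkey d hd).2.1⟩
  · intro x _ _
    positivity

lemma log_le_Gs {h R : ℕ} (hh : 1 ≤ h) (hR : 1 ≤ R) :
    (Nat.totient h : ℝ) / (h : ℝ) * Real.log R ≤ Gs h R := by
  have h1 : Real.log R ≤ ∑ n ∈ Icc 1 R, (1 : ℝ) / (n : ℝ) := by
    have h2 := log_add_one_le_harmonic R
    rw [harmonic_eq_sum_Icc] at h2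
    push_cast at h2
    have h3 : Real.log R ≤ Real.log ((R : ℝ) + 1) :=
      Real.log_le_log (by exact_mod_cast hR) (by linarith)
    simp only [one_div]
    linarith
  have h4 := (h1.trans (harmonic_le_Gs_one R)).trans (Gs_one_le (R := R) hh)
  have hphi := phi_pos hh
  have hh0 : (0 : ℝ) < h := by exact_mod_cast hh
  calc (Nat.totient h : ℝ) / (h : ℝ) * Real.log R
      ≤ (Nat.totient h : ℝ) / (h : ℝ) * ((h : ℝ) / (Nat.totient h : ℝ) * Gs h R) :=
        mul_le_mul_of_nonneg_left h4 (by positivity)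
    _ = Gs h R := by field_simp

lemma Gs_le {h R : ℕ} : Gs h R ≤ (1 + Real.log R) ^ 2 := by
  have hH : ∑ n ∈ Icc 1 R, (1 : ℝ) / (n : ℝ) ≤ 1 + Real.log R := by
    have h2 := harmonic_le_one_add_log R
    rw [harmonic_eq_sum_Icc] at h2
    push_cast at h2
    simpa only [one_div] using h2
  have hH0 : 0 ≤ ∑ n ∈ Icc 1 R, (1 : ℝ) / (n : ℝ) := Finset.sum_nonneg (fun _ _ => by positivity)
  have hterm : ∀ d ∈ Dset h R, (1 : ℝ) / (Nat.totient d : ℝ) ≤
      ∑ x ∈ d.divisorsAntidiagonal, (1 : ℝ) / (x.1 : ℝ) * ((1 : ℝ) / (x.2 : ℝ)) := by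
    intro d hd
    rw [mem_Dset] at hd
    have hd1 := hd.1.1
    have hphi := phi_pos hd1
    have hd0 : (0 : ℝ) < d := by exact_mod_cast hd1
    have h1 : ∑ x ∈ d.divisorsAntidiagonal, (1 : ℝ) / (x.1 : ℝ) * ((1 : ℝ) / (x.2 : ℝ)) =
        ∑ x ∈ d.divisorsAntidiagonal, (1 : ℝ) / (d : ℝ) := by
      apply Finset.sum_congr rfl
      intro x hx
      rw [Nat.mem_divisorsAntidiagonal] at hx
      rw [← hx.1]
      push_cast
      rw [div_mul_div_comm, one_mul]
    rw [h1, Nat.sum_divisorsAntidiagonal (fun _ _ => (1 : ℝ) / (d : ℝ)), Finset.sum_const,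
      nsmul_eq_mul]
    have h2 : (d : ℝ) / (Nat.totient d : ℝ) ≤ (d.divisors.card : ℝ) := by
      rw [← sum_inv_totient hd.2.1, Finset.card_eq_sum_ones]
      push_cast
      apply Finset.sum_le_sum
      intro l hl
      have hl1 : 1 ≤ l := Nat.pos_of_mem_divisors hl
      have : (1 : ℝ) ≤ (Nat.totient l : ℝ) := by
        exact_mod_cast Nat.totient_pos.mpr hl1
      rw [div_le_one (by linarith)]
      exact this
    calc (1 : ℝ) / (Nat.totient d : ℝ) = ((d : ℝ) / (Nat.totient d : ℝ)) * (1 / (d : ℝ)) := by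
          field_simp
      _ ≤ (d.divisors.card : ℝ) * (1 / (d : ℝ)) :=
          mul_le_mul_of_nonneg_right h2 (by positivity)
  unfold Gs
  refine (Finset.sum_le_sum hterm).trans ?_
  rw [Finset.sum_sigma']
  have hinj : Set.InjOn (fun x : (Σ _ : ℕ, ℕ × ℕ) => x.2)
      ↑((Dset h R).sigma (fun d => d.divisorsAntidiagonal)) := by
    rintro ⟨d, a, b⟩ hx ⟨d', a', b'⟩ hx' heq
    simp only [Finset.mem_coe, Finset.mem_sigma, Nat.mem_divisorsAntidiagonal] at hx hx'
    simp only [Prod.mk.injEq] at heq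
    obtain ⟨rfl, rfl⟩ := heq
    obtain rfl : d = d' := by rw [← hx.2.1, ← hx'.2.1]
    rfl
  rw [← Finset.sum_image (f := fun x : ℕ × ℕ => (1 : ℝ) / (x.1 : ℝ) * ((1 : ℝ) / (x.2 : ℝ))) hinj]
  calc ∑ x ∈ ((Dset h R).sigma (fun d => d.divisorsAntidiagonal)).image
        (fun x : (Σ _ : ℕ, ℕ × ℕ) => x.2), (1 : ℝ) / (x.1 : ℝ) * ((1 : ℝ) / (x.2 : ℝ))
      ≤ ∑ x ∈ Icc 1 R ×ˢ Icc 1 R, (1 : ℝ) / (x.1 : ℝ) * ((1 : ℝ) / (x.2 : ℝ)) := by
        apply Finset.sum_le_sum_of_subset_of_nonneg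
        · intro x hx
          simp only [Finset.mem_image, Finset.mem_sigma, Nat.mem_divisorsAntidiagonal,
            mem_Dset] at hx
          obtain ⟨⟨d, y⟩, ⟨⟨⟨hd1, hdR⟩, _⟩, hy, hd0⟩, rfl⟩ := hx
          simp only at hy hd1 hdR hd0
          have hy0 : 0 < y.1 * y.2 := by rw [hy]; exact hd1
          have hy1 : 0 < y.1 := Nat.pos_of_mul_pos_right hy0
          have hy2 : 0 < y.2 := Nat.pos_of_mul_pos_left hy0
          rw [Finset.mem_product, mem_Icc, mem_Icc]
          simp only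
          refine ⟨⟨hy1, ?_⟩, ⟨hy2, ?_⟩⟩
          · nlinarith
          · nlinarith
        · intro x _ _
          positivity
    _ = (∑ n ∈ Icc 1 R, (1 : ℝ) / (n : ℝ)) * (∑ n ∈ Icc 1 R, (1 : ℝ) / (n : ℝ)) := by
        rw [Finset.sum_mul_sum, Finset.sum_product]
    _ ≤ (1 + Real.log R) ^ 2 := by
        rw [sq]
        exact mul_le_mul hH hH hH0 (hH0.trans hH)

lemma Lam_prime {h R n : ℕ} (hR : 1 ≤ R) (hn : n.Prime) (hRn : R < n) : Lam h R n = 1 := by
  unfold Lam
  have : (Dset h R).filter (fun d => d ∣ n) = {1} := by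
    ext d
    rw [mem_filter, mem_singleton, mem_Dset]
    constructor
    · rintro ⟨⟨⟨hd1, hdR⟩, _⟩, hdn⟩
      rcases (Nat.dvd_prime hn).mp hdn with h1 | h1
      · exact h1
      · omega
    · rintro rfl
      exact ⟨⟨⟨le_refl _, hR⟩, squarefree_one, Nat.coprime_one_left h⟩, one_dvd n⟩
  rw [this, Finset.sum_singleton, lam_one hR]

end C1

/-- C1. -/
theorem claimC1 : ClaimC1 := by
  intro h R hh hR
  exact ⟨C1.lam_one hR, C1.abs_lam_le hR, C1.log_le_Gs hh hR, C1.one_le_Gs hR, C1.Gs_le,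
    fun n hn hRn => C1.Lam_prime hR hn hRn⟩

end Pool.Agent.Work.MP_8d13b5_lc.Ex2.Sel

end
section

/-!
# Diagonalisation of the Selberg quadratic form

Squarefree numbers are encoded by their finite sets of primes.
-/

set_option autoImplicit false

namespace Pool.Agent.Work.MP_8d13b5_lc.Ex2.Sel

open Finset
open scoped BigOperators

namespace C2

/-- the product of a set of primes -/
def nS (S : Finset ℕ) : ℕ := ∏ p ∈ S, p

/-- all elements are primes -/
def Prs (S : Finset ℕ) : Prop := ∀ p ∈ S, p.Prime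

/-- the totient of the product -/
noncomputable def ph (S : Finset ℕ) : ℝ := ∏ p ∈ S, ((p : ℝ) - 1)

/-- the sets of primes of the elements of Dset -/
def Ds (h R : ℕ) : Finset (Finset ℕ) := (Pr h R).powerset.filter (fun S => nS S ≤ R)

theorem Prs.mono {S T : Finset ℕ} (hT : Prs T) (h : S ⊆ T) : Prs S := fun p hp => hT p (h hp)

theorem Prs.union {S T : Finset ℕ} (hS : Prs S) (hT : Prs T) : Prs (S ∪ T) := fun p hp => by
  rcases Finset.mem_union.1 hp with h | h
  · exact hS p h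
  · exact hT p h

theorem nS_pos {S : Finset ℕ} (hS : Prs S) : 0 < nS S :=
  Finset.prod_pos fun p hp => (hS p hp).pos

theorem ph_pos {S : Finset ℕ} (hS : Prs S) : 0 < ph S :=
  Finset.prod_pos fun p hp => by
    have : (2 : ℝ) ≤ (p : ℝ) := by exact_mod_cast (hS p hp).two_le
    linarith

theorem nS_union {S T : Finset ℕ} (h : Disjoint S T) : nS (S ∪ T) = nS S * nS T :=
  Finset.prod_union h

theorem ph_union {S T : Finset ℕ} (h : Disjoint S T) : ph (S ∪ T) = ph S * ph T :=
  Finset.prod_union h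

theorem pf {S : Finset ℕ} (hS : Prs S) : (nS S).primeFactors = S := Nat.primeFactors_prod hS

theorem dvd_iff {S : Finset ℕ} (hS : Prs S) {p : ℕ} (hp : p.Prime) : p ∣ nS S ↔ p ∈ S := by
  rw [nS, Prime.dvd_finsetProd_iff hp.prime]
  constructor
  · rintro ⟨q, hq, hpq⟩
    rwa [(Nat.prime_dvd_prime_iff_eq hp (hS q hq)).1 hpq]
  · intro h
    exact ⟨p, h, dvd_rfl⟩

theorem coprime_iff {S T : Finset ℕ} (hS : Prs S) (hT : Prs T) :
    Nat.Coprime (nS S) (nS T) ↔ Disjoint S T := by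
  rw [← Nat.disjoint_primeFactors (nS_pos hS).ne' (nS_pos hT).ne', pf hS, pf hT]

theorem Prs.of_insert {p : ℕ} {S : Finset ℕ} (h : Prs (insert p S)) : p.Prime ∧ Prs S :=
  ⟨h p (Finset.mem_insert_self p S), h.mono (Finset.subset_insert p S)⟩

theorem coprime_insert {p : ℕ} {S : Finset ℕ} (hp : p.Prime) (hS : Prs S) (h : p ∉ S) :
    Nat.Coprime p (nS S) := by
  rw [Nat.Prime.coprime_iff_not_dvd hp, dvd_iff hS hp]
  exact h

theorem nS_insert {p : ℕ} {S : Finset ℕ} (h : p ∉ S) : nS (insert p S) = p * nS S :=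
  Finset.prod_insert h

theorem sqf {S : Finset ℕ} (hS : Prs S) : Squarefree (nS S) := by
  classical
  induction S using Finset.induction_on with
  | empty => exact squarefree_one
  | insert p S hp ih =>
    obtain ⟨h1, h2⟩ := hS.of_insert
    rw [nS_insert hp, Nat.squarefree_mul (coprime_insert h1 h2 hp)]
    exact ⟨h1.squarefree, ih h2⟩

theorem moebius_nS {S : Finset ℕ} (hS : Prs S) :
    ((ArithmeticFunction.moebius (nS S) : ℤ) : ℝ) = (-1) ^ S.card := by
  classical
  induction S using Finset.induction_on with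
  | empty => simp [nS]
  | insert p S hp ih =>
    obtain ⟨h1, h2⟩ := hS.of_insert
    rw [nS_insert hp, ArithmeticFunction.isMultiplicative_moebius.map_mul_of_coprime
      (coprime_insert h1 h2 hp), ArithmeticFunction.moebius_apply_prime h1,
      Finset.card_insert_of_notMem hp, pow_succ]
    push_cast
    rw [ih h2]
    ring

theorem totient_nS {S : Finset ℕ} (hS : Prs S) : (Nat.totient (nS S) : ℝ) = ph S := by
  classical
  induction S using Finset.induction_on with
  | empty => simp [nS, ph]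
  | insert p S hp ih =>
    obtain ⟨h1, h2⟩ := hS.of_insert
    rw [nS_insert hp, Nat.totient_mul (coprime_insert h1 h2 hp), Nat.totient_prime h1, ph,
      Finset.prod_insert hp, Nat.cast_mul, ih h2, Nat.cast_sub h1.one_le]
    simp [ph]

theorem mem_Dset {h R d : ℕ} : d ∈ Dset h R ↔ (1 ≤ d ∧ d ≤ R) ∧ Squarefree d ∧ Nat.Coprime d h := by
  simp [Dset, Finset.mem_filter, Finset.mem_Icc]

theorem mem_Pr {h R p : ℕ} : p ∈ Pr h R ↔ (1 ≤ p ∧ p ≤ R) ∧ p.Prime ∧ Nat.Coprime p h := by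
  simp [Pr, Finset.mem_filter, Finset.mem_Icc]

theorem mem_Ds {h R : ℕ} {S : Finset ℕ} : S ∈ Ds h R ↔ S ⊆ Pr h R ∧ nS S ≤ R := by
  simp [Ds, Finset.mem_filter, Finset.mem_powerset]

theorem prs_of_Ds {h R : ℕ} {S : Finset ℕ} (hS : S ∈ Ds h R) : Prs S :=
  fun p hp => (mem_Pr.1 ((mem_Ds.1 hS).1 hp)).2.1

theorem nS_mem_iff {h R : ℕ} {S : Finset ℕ} (hS : Prs S) : nS S ∈ Dset h R ↔ S ∈ Ds h R := by
  rw [mem_Dset, mem_Ds]
  constructor
  · rintro ⟨⟨_, h2⟩, _, h4⟩
    refine ⟨fun p hp => mem_Pr.2 ⟨⟨(hS p hp).one_le, ?_⟩, hS p hp, ?_⟩, h2⟩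
    · exact le_trans (Nat.le_of_dvd (nS_pos hS) ((dvd_iff hS (hS p hp)).2 hp)) h2
    · exact Nat.Coprime.coprime_dvd_left ((dvd_iff hS (hS p hp)).2 hp) h4
  · rintro ⟨h1, h2⟩
    refine ⟨⟨nS_pos hS, h2⟩, sqf hS, ?_⟩
    exact Nat.Coprime.prod_left fun p hp => (mem_Pr.1 (h1 hp)).2.2

theorem Ds_mono {h R : ℕ} {S T : Finset ℕ} (hT : T ∈ Ds h R) (hST : S ⊆ T) : S ∈ Ds h R := by
  have hT' := mem_Ds.1 hT
  refine mem_Ds.2 ⟨hST.trans hT'.1, le_trans ?_ hT'.2⟩
  exact Nat.le_of_dvd (nS_pos (prs_of_Ds hT)) (Finset.prod_dvd_prod_of_subset _ _ _ hST)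

theorem sum_conv (h R : ℕ) (F : ℕ → ℝ) : ∑ d ∈ Dset h R, F d = ∑ S ∈ Ds h R, F (nS S) := by
  refine Finset.sum_nbij' (fun d => d.primeFactors) nS ?_ ?_ ?_ ?_ ?_
  · intro d hd
    have hd' := mem_Dset.1 hd
    have hp : Prs d.primeFactors := fun p hp => Nat.prime_of_mem_primeFactors hp
    have h1 : nS d.primeFactors = d := Nat.prod_primeFactors_of_squarefree hd'.2.1
    rw [← nS_mem_iff hp, h1]
    exact hd
  · intro S hS
    exact (nS_mem_iff (prs_of_Ds hS)).2 hS
  · intro d hd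
    exact Nat.prod_primeFactors_of_squarefree (mem_Dset.1 hd).2.1
  · intro S hS
    exact pf (prs_of_Ds hS)
  · intro d hd
    have h1 : nS d.primeFactors = d := Nat.prod_primeFactors_of_squarefree (mem_Dset.1 hd).2.1
    rw [h1]

theorem sum_conv_filter (h R : ℕ) (c : ℕ → Prop) [DecidablePred c] (F : ℕ → ℝ) :
    ∑ d ∈ (Dset h R).filter c, F d = ∑ S ∈ (Ds h R).filter (fun S => c (nS S)), F (nS S) := by
  rw [Finset.sum_filter, sum_conv, ← Finset.sum_filter]

/-- the Selberg weight of a set of primes -/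
theorem lam_nS (h R : ℕ) {S : Finset ℕ} (hS : Prs S) :
    lam h R (nS S) = (-1) ^ S.card * (nS S : ℝ) / Gs h R *
      ∑ K ∈ (Ds h R).filter (fun K => S ⊆ K), 1 / ph K := by
  classical
  by_cases hD : S ∈ Ds h R
  · rw [lam, if_pos ((nS_mem_iff hS).2 hD), moebius_nS hS, totient_nS hS, sum_conv_filter]
    have h1 : ∑ K ∈ (Ds h R).filter (fun K => S ⊆ K), 1 / ph K =
        (1 / ph S) * ∑ M ∈ (Ds h R).filter (fun M => Nat.Coprime (nS M) (nS S) ∧ nS M * nS S ≤ R),
          (1 : ℝ) / (Nat.totient (nS M) : ℝ) := by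
      rw [Finset.mul_sum]
      refine Finset.sum_nbij' (fun K => K \ S) (fun M => M ∪ S) ?_ ?_ ?_ ?_ ?_
      · intro K hK
        simp only [Finset.mem_filter] at hK ⊢
        have hKp := prs_of_Ds hK.1
        have hKS : Prs (K \ S) := hKp.mono Finset.sdiff_subset
        refine ⟨Ds_mono hK.1 Finset.sdiff_subset, ?_, ?_⟩
        · rw [coprime_iff hKS hS]
          exact Finset.sdiff_disjoint
        · rw [← nS_union Finset.sdiff_disjoint, Finset.sdiff_union_of_subset hK.2]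
          exact (mem_Ds.1 hK.1).2
      · intro M hM
        simp only [Finset.mem_filter] at hM ⊢
        have hMp := prs_of_Ds hM.1
        have hdis : Disjoint M S := (coprime_iff hMp hS).1 hM.2.1
        refine ⟨mem_Ds.2 ⟨Finset.union_subset (mem_Ds.1 hM.1).1 (mem_Ds.1 hD).1, ?_⟩,
          Finset.subset_union_right⟩
        rw [nS_union hdis]
        exact hM.2.2
      · intro K hK
        simp only [Finset.mem_filter] at hK
        exact Finset.sdiff_union_of_subset hK.2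
      · intro M hM
        simp only [Finset.mem_filter] at hM
        have hMp := prs_of_Ds hM.1
        have hdis : Disjoint M S := (coprime_iff hMp hS).1 hM.2.1
        exact Finset.union_sdiff_cancel_right hdis
      · intro K hK
        simp only [Finset.mem_filter] at hK
        have hKp := prs_of_Ds hK.1
        rw [totient_nS (hKp.mono Finset.sdiff_subset)]
        have h2 : ph K = ph (K \ S) * ph S := by
          rw [← ph_union Finset.sdiff_disjoint, Finset.sdiff_union_of_subset hK.2]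
        rw [h2]
        field_simp
    rw [h1]
    field_simp
  · have h0 : nS S ∉ Dset h R := fun h1 => hD ((nS_mem_iff hS).1 h1)
    rw [lam, if_neg h0]
    have : (Ds h R).filter (fun K => S ⊆ K) = ∅ := by
      refine Finset.filter_eq_empty_iff.2 fun K hK hSK => hD (Ds_mono hK hSK)
    rw [this]
    simp

/-- the linear forms of the diagonalisation -/
noncomputable def y (h R : ℕ) (P A T : Finset ℕ) : ℝ :=
  ∑ E ∈ (Ds h R).filter (fun E => Disjoint E P ∧ T ⊆ E), lam h R (nS (A ∪ E)) / (nS E : ℝ)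

/-- alternating sum over an interval of sets -/
theorem sum_interval (T X : Finset ℕ) :
    ∑ E ∈ X.powerset.filter (fun E => T ⊆ E), (-1 : ℝ) ^ E.card =
      if X = T then (-1) ^ T.card else 0 := by
  classical
  by_cases hTX : T ⊆ X
  · have h1 : ∑ E ∈ X.powerset.filter (fun E => T ⊆ E), (-1 : ℝ) ^ E.card =
        ∑ F ∈ (X \ T).powerset, (-1 : ℝ) ^ T.card * (-1) ^ F.card := by
      refine Finset.sum_nbij' (fun E => E \ T) (fun F => F ∪ T) ?_ ?_ ?_ ?_ ?_
      · intro E hE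
        simp only [Finset.mem_filter, Finset.mem_powerset] at hE ⊢
        exact Finset.sdiff_subset_sdiff hE.1 le_rfl
      · intro F hF
        simp only [Finset.mem_filter, Finset.mem_powerset] at hF ⊢
        exact ⟨Finset.union_subset (hF.trans Finset.sdiff_subset) hTX, Finset.subset_union_right⟩
      · intro E hE
        simp only [Finset.mem_filter, Finset.mem_powerset] at hE
        exact Finset.sdiff_union_of_subset hE.2
      · intro F hF
        simp only [Finset.mem_powerset] at hF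
        exact Finset.union_sdiff_cancel_right
          (Finset.disjoint_of_subset_left hF Finset.sdiff_disjoint)
      · intro E hE
        simp only [Finset.mem_filter, Finset.mem_powerset] at hE
        rw [← pow_add, add_comm T.card, Finset.card_sdiff_add_card_eq_card hE.2]
    rw [h1, ← Finset.mul_sum]
    have h2 : ∑ F ∈ (X \ T).powerset, (-1 : ℝ) ^ F.card = if X \ T = ∅ then 1 else 0 := by
      have := @Finset.sum_powerset_neg_one_pow_card ℕ _ (X \ T)
      exact_mod_cast this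
    rw [h2]
    by_cases hXT : X = T
    · rw [if_pos hXT, if_pos (by rw [hXT, Finset.sdiff_self]), mul_one]
    · rw [if_neg hXT, if_neg, mul_zero]
      intro h3
      exact hXT (Finset.Subset.antisymm (Finset.sdiff_eq_empty_iff_subset.1 h3) hTX)
  · have h1 : X.powerset.filter (fun E => T ⊆ E) = ∅ := by
      refine Finset.filter_eq_empty_iff.2 fun E hE hTE =>
        hTX (hTE.trans (Finset.mem_powerset.1 hE))
    rw [h1, Finset.sum_empty, if_neg]
    intro h2
    exact hTX (h2 ▸ Finset.Subset.refl _)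

theorem y_eq (h R : ℕ) {P A T : Finset ℕ} (hP : Prs P) (hA : A ⊆ P) :
    y h R P A T = (-1) ^ A.card * (-1) ^ T.card * (nS A : ℝ) / Gs h R *
      ∑ K ∈ (Ds h R).filter (fun K => A ⊆ K ∧ K \ P = T), 1 / ph K := by
  classical
  have hAp : Prs A := hP.mono hA
  have h1 : ∀ E ∈ (Ds h R).filter (fun E => Disjoint E P ∧ T ⊆ E),
      lam h R (nS (A ∪ E)) / (nS E : ℝ) =
        ∑ K ∈ (Ds h R).filter (fun K => A ∪ E ⊆ K),
          (-1) ^ A.card * (nS A : ℝ) / Gs h R * ((1 / ph K) * (-1) ^ E.card) := by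
    intro E hE
    simp only [Finset.mem_filter] at hE
    have hEp := prs_of_Ds hE.1
    have hdis : Disjoint A E := (Finset.disjoint_of_subset_right hA hE.2.1).symm
    have hE0 : (nS E : ℝ) ≠ 0 := by exact_mod_cast (nS_pos hEp).ne'
    rw [lam_nS h R (hAp.union hEp), Finset.card_union_of_disjoint hdis, nS_union hdis,
      Finset.mul_sum, Finset.sum_div]
    refine Finset.sum_congr rfl fun K _ => ?_
    push_cast
    rw [pow_add]
    field_simp
  rw [y, Finset.sum_congr rfl h1]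
  -- exchange the sums
  rw [Finset.sum_comm' (t' := Ds h R) (s' := fun K => (Ds h R).filter
    (fun E => (Disjoint E P ∧ T ⊆ E) ∧ A ∪ E ⊆ K))]
  · have h2 : ∀ K ∈ Ds h R,
        ∑ E ∈ (Ds h R).filter (fun E => (Disjoint E P ∧ T ⊆ E) ∧ A ∪ E ⊆ K),
          (-1) ^ A.card * (nS A : ℝ) / Gs h R * ((1 / ph K) * (-1) ^ E.card) =
        if A ⊆ K ∧ K \ P = T then (-1) ^ A.card * (-1) ^ T.card * (nS A : ℝ) / Gs h R * (1 / ph K)
          else 0 := by
      intro K hK
      by_cases hAK : A ⊆ K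
      · have h3 : (Ds h R).filter (fun E => (Disjoint E P ∧ T ⊆ E) ∧ A ∪ E ⊆ K) =
            (K \ P).powerset.filter (fun E => T ⊆ E) := by
          ext E
          simp only [Finset.mem_filter, Finset.mem_powerset]
          constructor
          · rintro ⟨_, ⟨h5, h6⟩, h7⟩
            refine ⟨?_, h6⟩
            exact Finset.subset_sdiff.2 ⟨(Finset.union_subset_iff.1 h7).2, h5⟩
          · rintro ⟨h5, h6⟩
            have h7 := Finset.subset_sdiff.1 h5
            exact ⟨Ds_mono hK h7.1, ⟨h7.2, h6⟩, Finset.union_subset hAK h7.1⟩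
        rw [h3, ← Finset.mul_sum, ← Finset.mul_sum, sum_interval]
        by_cases hKT : K \ P = T
        · rw [if_pos hKT, if_pos ⟨hAK, hKT⟩]
          ring
        · rw [if_neg hKT, if_neg (fun h8 => hKT h8.2)]
          ring
      · have h3 : (Ds h R).filter (fun E => (Disjoint E P ∧ T ⊆ E) ∧ A ∪ E ⊆ K) = ∅ := by
          refine Finset.filter_eq_empty_iff.2 fun E _ h4 =>
            hAK (Finset.union_subset_iff.1 h4.2).1
        rw [h3, Finset.sum_empty, if_neg (fun h8 => hAK h8.1)]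
    rw [Finset.sum_congr rfl h2, ← Finset.sum_filter, Finset.mul_sum]
  · intro E K
    simp only [Finset.mem_filter]
    tauto

theorem Gs_eq (h R : ℕ) : Gs h R = ∑ K ∈ Ds h R, 1 / ph K := by
  rw [Gs, sum_conv]
  exact Finset.sum_congr rfl fun K hK => by rw [totient_nS (prs_of_Ds hK)]

theorem one_le_Gs (h R : ℕ) (hR : 1 ≤ R) : 1 ≤ Gs h R := by
  have h1 : (1 : ℕ) ∈ Dset h R := mem_Dset.2 ⟨⟨le_rfl, hR⟩, squarefree_one, Nat.coprime_one_left h⟩
  have h2 := Finset.single_le_sum (f := fun d : ℕ => (1 : ℝ) / (Nat.totient d : ℝ))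
    (fun d _ => by positivity) h1
  simpa [Gs] using h2

/-- the bound for the linear forms -/
theorem y_le (h R : ℕ) (hR : 1 ≤ R) {P A T : Finset ℕ} (hP : Prs P) (hA : A ⊆ P)
    (hT : Prs T) :
    |y h R P A T| ≤ 2 ^ P.card / (Gs h R * ph T) := by
  classical
  have hG : 0 < Gs h R := lt_of_lt_of_le one_pos (one_le_Gs h R hR)
  have hAp : Prs A := hP.mono hA
  have hphT := ph_pos hT
  have hnA : (0 : ℝ) < nS A := by exact_mod_cast nS_pos hAp
  rw [y_eq h R hP hA, abs_mul, abs_div, abs_mul, abs_mul, abs_pow, abs_pow, abs_neg, abs_one,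
    one_pow, one_pow, one_mul, one_mul, abs_of_pos hG, abs_of_pos hnA]
  have h1 : |∑ K ∈ (Ds h R).filter (fun K => A ⊆ K ∧ K \ P = T), 1 / ph K| ≤
      ∑ Q ∈ (P \ A).powerset, 1 / (ph T * ph A * ph Q) := by
    rw [abs_of_nonneg (Finset.sum_nonneg fun K hK => by
      have := ph_pos (prs_of_Ds (Finset.mem_filter.1 hK).1)
      positivity)]
    have h2 : ∑ K ∈ (Ds h R).filter (fun K => A ⊆ K ∧ K \ P = T), 1 / ph K =
        ∑ Q ∈ ((Ds h R).filter (fun K => A ⊆ K ∧ K \ P = T)).image (fun K => (K ∩ P) \ A),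
          1 / (ph T * ph A * ph Q) := by
      rw [Finset.sum_image]
      · refine Finset.sum_congr rfl fun K hK => ?_
        simp only [Finset.mem_filter] at hK
        obtain ⟨hKD, hAK, hKT⟩ := hK
        have e1 : K = (K \ P) ∪ (K ∩ P) := (Finset.sdiff_union_inter K P).symm
        have e2 : K ∩ P = A ∪ ((K ∩ P) \ A) := by
          rw [Finset.union_sdiff_of_subset]
          exact Finset.subset_inter hAK hA
        have e3 : ph K = ph T * ph (K ∩ P) := by
          conv_lhs => rw [e1]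
          rw [ph_union, hKT]
          exact Finset.disjoint_of_subset_right Finset.inter_subset_right Finset.sdiff_disjoint
        have e4 : ph (K ∩ P) = ph A * ph ((K ∩ P) \ A) := by
          conv_lhs => rw [e2]
          exact ph_union Finset.disjoint_sdiff
        rw [e3, e4, mul_assoc]
      · intro K hK K' hK' hEq
        simp only [Finset.coe_filter, Set.mem_ofPred_eq] at hK hK'
        simp only at hEq
        obtain ⟨_, hAK, hKT⟩ := hK
        obtain ⟨_, hAK', hKT'⟩ := hK'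
        have e1 : K = (K \ P) ∪ (K ∩ P) := (Finset.sdiff_union_inter K P).symm
        have e1' : K' = (K' \ P) ∪ (K' ∩ P) := (Finset.sdiff_union_inter K' P).symm
        have e2 : K ∩ P = A ∪ ((K ∩ P) \ A) := by
          rw [Finset.union_sdiff_of_subset]
          exact Finset.subset_inter hAK hA
        have e2' : K' ∩ P = A ∪ ((K' ∩ P) \ A) := by
          rw [Finset.union_sdiff_of_subset]
          exact Finset.subset_inter hAK' hA
        rw [e1, e1', hKT, hKT', e2, e2', hEq]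
    rw [h2]
    refine Finset.sum_le_sum_of_subset_of_nonneg ?_ ?_
    · intro Q hQ
      simp only [Finset.mem_image, Finset.mem_filter, Finset.mem_powerset] at hQ ⊢
      obtain ⟨K, _, rfl⟩ := hQ
      exact Finset.sdiff_subset_sdiff Finset.inter_subset_right le_rfl
    · intro Q hQ _
      have hQp : Prs Q := hP.mono ((Finset.mem_powerset.1 hQ).trans Finset.sdiff_subset)
      have := ph_pos hQp
      have := ph_pos hAp
      positivity
  have h3 : ∑ Q ∈ (P \ A).powerset, 1 / (ph T * ph A * ph Q) =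
      1 / (ph T * ph A) * ∏ p ∈ P \ A, (1 + 1 / ((p : ℝ) - 1)) := by
    rw [Finset.prod_one_add, Finset.mul_sum]
    refine Finset.sum_congr rfl fun Q _ => ?_
    rw [ph, ph, ph, Finset.prod_div_distrib, Finset.prod_const_one]
    rw [one_div_mul_one_div]
  have h4 : (nS A : ℝ) / ph A = ∏ p ∈ A, ((p : ℝ) / ((p : ℝ) - 1)) := by
    rw [nS, ph, Finset.prod_div_distrib]
    push_cast
    rfl
  have h5 : ∏ p ∈ P \ A, (1 + 1 / ((p : ℝ) - 1)) ≤ 2 ^ (P \ A).card := by
    rw [← Finset.prod_const]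
    refine Finset.prod_le_prod (fun p hp => ?_) (fun p hp => ?_)
    · have h2 : (2 : ℝ) ≤ p := by exact_mod_cast (hP p (Finset.mem_sdiff.1 hp).1).two_le
      have : 0 < (p : ℝ) - 1 := by linarith
      positivity
    · have h2 : (2 : ℝ) ≤ p := by exact_mod_cast (hP p (Finset.mem_sdiff.1 hp).1).two_le
      have h3 : 1 / ((p : ℝ) - 1) ≤ 1 := by
        rw [div_le_one (by linarith)]
        linarith
      linarith
  have h6 : ∏ p ∈ A, ((p : ℝ) / ((p : ℝ) - 1)) ≤ 2 ^ A.card := by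
    rw [← Finset.prod_const]
    refine Finset.prod_le_prod (fun p hp => ?_) (fun p hp => ?_)
    · have h2 : (2 : ℝ) ≤ p := by exact_mod_cast (hAp p hp).two_le
      have : 0 < (p : ℝ) - 1 := by linarith
      positivity
    · have h2 : (2 : ℝ) ≤ p := by exact_mod_cast (hAp p hp).two_le
      rw [div_le_iff₀ (by linarith)]
      linarith
  have h7 : 0 ≤ ∏ p ∈ P \ A, (1 + 1 / ((p : ℝ) - 1)) := by
    refine Finset.prod_nonneg fun p hp => ?_
    have h2 : (2 : ℝ) ≤ p := by exact_mod_cast (hP p (Finset.mem_sdiff.1 hp).1).two_le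
    have : 0 < (p : ℝ) - 1 := by linarith
    positivity
  have hphA := ph_pos hAp
  have hcard : A.card + (P \ A).card = P.card := by
    rw [add_comm, Finset.card_sdiff_add_card_eq_card hA]
  calc (nS A : ℝ) / Gs h R * |∑ K ∈ (Ds h R).filter (fun K => A ⊆ K ∧ K \ P = T), 1 / ph K|
      ≤ (nS A : ℝ) / Gs h R * (1 / (ph T * ph A) * ∏ p ∈ P \ A, (1 + 1 / ((p : ℝ) - 1))) := by
        refine mul_le_mul_of_nonneg_left ?_ (by positivity)
        rw [← h3]
        exact h1
    _ = 1 / (Gs h R * ph T) * ((nS A : ℝ) / ph A * ∏ p ∈ P \ A, (1 + 1 / ((p : ℝ) - 1))) := by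
        field_simp
    _ ≤ 1 / (Gs h R * ph T) * (2 ^ A.card * 2 ^ (P \ A).card) := by
        refine mul_le_mul_of_nonneg_left ?_ (by positivity)
        rw [h4]
        exact mul_le_mul h6 h5 h7 (by positivity)
    _ = 2 ^ P.card / (Gs h R * ph T) := by
        rw [← pow_add, hcard]
        ring

/-- the quadratic form in terms of the linear forms -/
theorem form_eq (h R : ℕ) {P A B : Finset ℕ} (hP : Prs P) (hA : A ⊆ P) (hB : B ⊆ P) :
    ∑ e ∈ (Dset h R).filter (fun e => ∀ p ∈ P, ¬ p ∣ e),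
        ∑ f ∈ (Dset h R).filter (fun f => ∀ p ∈ P, ¬ p ∣ f),
          lam h R (nS A * e) * lam h R (nS B * f) / (Nat.lcm e f : ℝ) =
      ∑ T ∈ (Ds h R).filter (fun T => Disjoint T P), ph T * y h R P A T * y h R P B T := by
  classical
  have hfil : (Ds h R).filter (fun S => ∀ p ∈ P, ¬ p ∣ nS S) =
      (Ds h R).filter (fun T => Disjoint T P) := by
    refine Finset.filter_congr fun S hS => ?_
    have hSp := prs_of_Ds hS
    rw [Finset.disjoint_right]
    exact ⟨fun h1 p hp hpS => h1 p hp ((dvd_iff hSp (hP p hp)).2 hpS),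
      fun h1 p hp hpS => h1 hp ((dvd_iff hSp (hP p hp)).1 hpS)⟩
  rw [sum_conv_filter h R (fun e => ∀ p ∈ P, ¬ p ∣ e)
    (fun e => ∑ f ∈ (Dset h R).filter (fun f => ∀ p ∈ P, ¬ p ∣ f),
          lam h R (nS A * e) * lam h R (nS B * f) / (Nat.lcm e f : ℝ)), hfil]
  have h1 : ∀ E ∈ (Ds h R).filter (fun T => Disjoint T P),
      ∑ f ∈ (Dset h R).filter (fun f => ∀ p ∈ P, ¬ p ∣ f),
          lam h R (nS A * nS E) * lam h R (nS B * f) / (Nat.lcm (nS E) f : ℝ) =
      ∑ F ∈ (Ds h R).filter (fun T => Disjoint T P),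
        ∑ T ∈ (Ds h R).filter (fun T => Disjoint T P ∧ (T ⊆ E ∧ T ⊆ F)),
          ph T * (lam h R (nS (A ∪ E)) / (nS E : ℝ)) * (lam h R (nS (B ∪ F)) / (nS F : ℝ)) := by
    intro E hE
    rw [sum_conv_filter h R (fun f => ∀ p ∈ P, ¬ p ∣ f)
      (fun f => lam h R (nS A * nS E) * lam h R (nS B * f) / (Nat.lcm (nS E) f : ℝ)), hfil]
    refine Finset.sum_congr rfl fun F hF => ?_
    simp only [Finset.mem_filter] at hE hF
    have hEp := prs_of_Ds hE.1
    have hFp := prs_of_Ds hF.1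
    have hE0 : (nS E : ℝ) ≠ 0 := by exact_mod_cast (nS_pos hEp).ne'
    have hF0 : (nS F : ℝ) ≠ 0 := by exact_mod_cast (nS_pos hFp).ne'
    have hAE : nS A * nS E = nS (A ∪ E) :=
      (nS_union (Finset.disjoint_of_subset_right hA hE.2).symm).symm
    have hBF : nS B * nS F = nS (B ∪ F) :=
      (nS_union (Finset.disjoint_of_subset_right hB hF.2).symm).symm
    rw [hAE, hBF, ← Finset.sum_mul, ← Finset.sum_mul]
    have hT : ∑ T ∈ (Ds h R).filter (fun T => Disjoint T P ∧ (T ⊆ E ∧ T ⊆ F)), ph T =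
        (nS (E ∩ F) : ℝ) := by
      have h2 : (Ds h R).filter (fun T => Disjoint T P ∧ (T ⊆ E ∧ T ⊆ F)) =
          (E ∩ F).powerset := by
        ext T
        simp only [Finset.mem_filter, Finset.mem_powerset]
        constructor
        · rintro ⟨_, _, h3, h4⟩
          exact Finset.subset_inter h3 h4
        · intro h3
          have h4 := h3.trans Finset.inter_subset_left
          have h5 := h3.trans Finset.inter_subset_right
          exact ⟨Ds_mono hE.1 h4, Finset.disjoint_of_subset_left h4 hE.2, h4, h5⟩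
      rw [h2]
      have h3 : (nS (E ∩ F) : ℝ) = ∏ p ∈ E ∩ F, (1 + ((p : ℝ) - 1)) := by
        rw [nS]
        push_cast
        exact Finset.prod_congr rfl fun p _ => by ring
      rw [h3, Finset.prod_one_add]
      rfl
    rw [hT]
    have hgcd : Nat.gcd (nS E) (nS F) = nS (E ∩ F) := by
      have h2 : Squarefree (Nat.gcd (nS E) (nS F)) := (sqf hEp).squarefree_of_dvd (Nat.gcd_dvd_left _ _)
      have h3 : (Nat.gcd (nS E) (nS F)).primeFactors = E ∩ F := by
        rw [Nat.primeFactors_gcd (nS_pos hEp).ne' (nS_pos hFp).ne', pf hEp, pf hFp]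
      rw [← Nat.prod_primeFactors_of_squarefree h2, h3]
      rfl
    have hlcm : (nS (E ∩ F) : ℝ) * (Nat.lcm (nS E) (nS F) : ℝ) = (nS E : ℝ) * (nS F : ℝ) := by
      rw [← hgcd]
      exact_mod_cast Nat.gcd_mul_lcm (nS E) (nS F)
    have hl0 : (Nat.lcm (nS E) (nS F) : ℝ) ≠ 0 := by
      exact_mod_cast Nat.lcm_ne_zero (nS_pos hEp).ne' (nS_pos hFp).ne'
    have hmain : (nS (E ∩ F) : ℝ) / ((nS E : ℝ) * (nS F : ℝ)) =
        1 / (Nat.lcm (nS E) (nS F) : ℝ) := by
      rw [div_eq_div_iff (mul_ne_zero hE0 hF0) hl0, hlcm, one_mul]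
    calc lam h R (nS (A ∪ E)) * lam h R (nS (B ∪ F)) / (Nat.lcm (nS E) (nS F) : ℝ)
        = lam h R (nS (A ∪ E)) * lam h R (nS (B ∪ F)) * (1 / (Nat.lcm (nS E) (nS F) : ℝ)) := by
          ring
      _ = lam h R (nS (A ∪ E)) * lam h R (nS (B ∪ F)) *
          ((nS (E ∩ F) : ℝ) / ((nS E : ℝ) * (nS F : ℝ))) := by rw [hmain]
      _ = _ := by
          field_simp
  rw [Finset.sum_congr rfl h1]
  -- exchange
  have h2 : ∀ T ∈ (Ds h R).filter (fun T => Disjoint T P),
      ph T * y h R P A T * y h R P B T =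
      ∑ E ∈ (Ds h R).filter (fun E => Disjoint E P ∧ T ⊆ E),
        ∑ F ∈ (Ds h R).filter (fun F => Disjoint F P ∧ T ⊆ F),
          ph T * (lam h R (nS (A ∪ E)) / (nS E : ℝ)) * (lam h R (nS (B ∪ F)) / (nS F : ℝ)) := by
    intro T _
    rw [y, y, mul_assoc, Finset.sum_mul_sum, Finset.mul_sum]
    refine Finset.sum_congr rfl fun E _ => ?_
    rw [Finset.mul_sum]
    refine Finset.sum_congr rfl fun F _ => ?_
    ring
  rw [Finset.sum_congr rfl h2]
  rw [Finset.sum_comm' (s := (Ds h R).filter (fun T => Disjoint T P))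
    (t := fun T => (Ds h R).filter (fun E => Disjoint E P ∧ T ⊆ E))
    (t' := (Ds h R).filter (fun T => Disjoint T P))
    (s' := fun E => (Ds h R).filter (fun T => Disjoint T P ∧ T ⊆ E))]
  · refine Finset.sum_congr rfl fun E _ => ?_
    rw [Finset.sum_comm' (s := (Ds h R).filter (fun T => Disjoint T P ∧ T ⊆ E))
      (t := fun T => (Ds h R).filter (fun F => Disjoint F P ∧ T ⊆ F))
      (t' := (Ds h R).filter (fun T => Disjoint T P))
      (s' := fun F => (Ds h R).filter (fun T => Disjoint T P ∧ (T ⊆ E ∧ T ⊆ F)))]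
    intro T F
    simp only [Finset.mem_filter]
    tauto
  · intro T E
    simp only [Finset.mem_filter]
    tauto

end C2

theorem claimC2' : ClaimC2' := by
  classical
  intro h R hh hR
  have hG : 0 < Gs h R := lt_of_lt_of_le one_pos (C2.one_le_Gs h R hR)
  have h0 := C2.form_eq h R (P := ∅) (A := ∅) (B := ∅) (by intro p hp; simp at hp)
    (Finset.Subset.refl _) (Finset.Subset.refl _)
  simp only [C2.nS, Finset.prod_empty, one_mul, Finset.notMem_empty, false_imp_iff, implies_true,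
    Finset.filter_true, Finset.disjoint_empty_right] at h0
  rw [h0]
  have h1 : ∀ T ∈ C2.Ds h R, C2.ph T * C2.y h R ∅ ∅ T * C2.y h R ∅ ∅ T =
      1 / Gs h R ^ 2 * (1 / C2.ph T) := by
    intro T hT
    have hph := C2.ph_pos (C2.prs_of_Ds hT)
    have h2 : C2.y h R ∅ ∅ T = (-1) ^ T.card / (Gs h R * C2.ph T) := by
      rw [C2.y_eq h R (by intro p hp; simp at hp) (Finset.Subset.refl _)]
      have h3 : (C2.Ds h R).filter (fun K => (∅ : Finset ℕ) ⊆ K ∧ K \ ∅ = T) = {T} := by
        ext K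
        simp only [Finset.mem_filter, Finset.empty_subset, true_and, Finset.sdiff_empty,
          Finset.mem_singleton]
        constructor
        · exact fun h4 => h4.2
        · intro h4
          exact ⟨h4 ▸ hT, h4⟩
      rw [h3, Finset.sum_singleton]
      simp only [Finset.card_empty, pow_zero, C2.nS, Finset.prod_empty, Nat.cast_one]
      field_simp
    have h5 : ((-1 : ℝ) ^ T.card) * ((-1 : ℝ) ^ T.card) = 1 := by
      rw [← mul_pow]; norm_num
    rw [h2]
    field_simp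
    nlinarith [h5]
  rw [Finset.sum_congr rfl h1, ← Finset.mul_sum, ← C2.Gs_eq]
  field_simp

end Pool.Agent.Work.MP_8d13b5_lc.Ex2.Sel

end
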